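import Pool.Agent.Y913.Zm.Fn

/-!
Coprime pairs `(u, v)` such that the exponents of the primes `≥ 5` in `u v (u + v)` take at most
`n` values: for `rad (u v (u + v)) ≤ A M`, `M ≤ X` and `u + v ≥ c M ^ K` there are at most
`C X ^ ε` of them.
-/

set_option autoImplicit false

namespace Pool.Agent.Q130.SZ

open Finset Pool.Agent.Y913.Nb Pool.Agent.Y913.Zm

/-- the product of the primes dividing `m` -/
def rad (m : ℕ) : ℕ := ∏ p ∈ m.primeFactors, p

/-- the exponents of the primes `≥ 5` in `m` -/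
def expo (m : ℕ) : Finset ℕ :=
  (m.primeFactors.filter (fun p => 5 ≤ p)).image (fun p => m.factorization p)

lemma rad_pos (m : ℕ) : 0 < rad m :=
  prod_pos (fun _ hp => (Nat.prime_of_mem_primeFactors hp).pos)

lemma rad_le_of_dvd {a b : ℕ} (h : a ∣ b) (hb : b ≠ 0) : rad a ≤ rad b := by
  unfold rad
  refine prod_le_prod_of_subset_of_one_le' (Nat.primeFactors_mono h hb) ?_
  intro p hp _
  exact (Nat.prime_of_mem_primeFactors hp).one_le

lemma expo_subset {a b : ℕ} (h : Nat.Coprime a b) (hb : b ≠ 0) : expo a ⊆ expo (a * b) := by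
  intro e he
  unfold expo at he ⊢
  rw [mem_image] at he ⊢
  obtain ⟨p, hp, rfl⟩ := he
  rw [mem_filter] at hp
  have ha : a ≠ 0 := by
    rintro rfl
    simp at hp
  have hpp := Nat.prime_of_mem_primeFactors hp.1
  have hpa := Nat.dvd_of_mem_primeFactors hp.1
  refine ⟨p, ?_, ?_⟩
  · rw [mem_filter]
    exact ⟨Nat.mem_primeFactors.mpr ⟨hpp, Dvd.dvd.mul_right hpa b, mul_ne_zero ha hb⟩, hp.2⟩
  · have h0 : b.factorization p = 0 := by
      apply Nat.factorization_eq_zero_of_not_dvd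
      intro hpb
      have := Nat.dvd_gcd hpa hpb
      rw [h] at this
      exact hpp.one_lt.ne' (Nat.dvd_one.mp this)
    rw [Nat.factorization_mul ha hb, Finsupp.add_apply, h0, add_zero]

/-- a number whose exponents at the primes `≥ 5` take at most `n` values is a product of powers
of `n + 2` divisors of its radical -/
lemma nb_of_expo {n m : ℕ} {Y : ℝ} (hm : 0 < m) (hY : 3 ≤ Y) (hr : (rad m : ℝ) ≤ Y)
    (he : (expo m).card ≤ n) : NB (n + 2) Y m := by
  classical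
  have hY1 : 1 ≤ Y := by linarith
  refine NB.mono_n (n := (expo m).card + 2) ?_ hY1 (by omega)
  have hprod : m = ∏ p ∈ m.primeFactors, p ^ m.factorization p := by
    conv_lhs => rw [← Nat.prod_factorization_pow_eq_self hm.ne']
    rfl
  set S := m.primeFactors.filter (fun p => 5 ≤ p) with hS
  set f : ℕ → ℕ := fun p => m.factorization p with hf
  have hsmall : ∏ p ∈ m.primeFactors.filter (fun p => ¬ 5 ≤ p), p ^ f p = 2 ^ f 2 * 3 ^ f 3 := by
    have h23 : (2 : ℕ) ∉ ({3} : Finset ℕ) := by simp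
    have : ∏ p ∈ ({2, 3} : Finset ℕ), p ^ f p = 2 ^ f 2 * 3 ^ f 3 := by
      rw [prod_insert h23, prod_singleton]
    rw [← this]
    apply prod_subset
    · intro p hp
      rw [mem_filter] at hp
      have hpp := Nat.prime_of_mem_primeFactors hp.1
      have h5 : p < 5 := by omega
      have h2 := hpp.two_le
      interval_cases p
      · simp
      · simp
      · exact absurd hpp (by norm_num)
    · intro p hp hp2
      rw [mem_filter, not_and_or] at hp2
      have h5 : ¬ 5 ≤ p := by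
        simp only [mem_insert, mem_singleton] at hp
        rcases hp with rfl | rfl <;> norm_num
      rcases hp2 with h | h
      · have : f p = 0 := by
          simp only [hf]
          rw [← Nat.support_factorization] at h
          exact Finsupp.notMem_support_iff.mp h
        rw [this, pow_zero]
      · exact absurd h5 h
  have hbig : ∏ p ∈ S, p ^ f p = ∏ e ∈ expo m, (∏ p ∈ S.filter (fun p => f p = e), p) ^ e := by
    rw [← prod_fiberwise_of_maps_to (s := S) (t := expo m) (g := f)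
      (fun p hp => mem_image_of_mem _ hp)]
    apply prod_congr rfl
    intro e _
    rw [← prod_pow]
    apply prod_congr rfl
    intro p hp
    rw [mem_filter] at hp
    rw [hp.2]
  have hm2 : m = 2 ^ f 2 * 3 ^ f 3 *
      ∏ e ∈ expo m, (∏ p ∈ S.filter (fun p => f p = e), p) ^ e := by
    rw [← hsmall, ← hbig, mul_comm, hS, prod_filter_mul_prod_filter_not]
    exact hprod
  apply NB.of_type (ι := Option (Option (expo m))) (by simp)
    (fun i => i.elim 2 (fun i => i.elim 3 (fun e => ∏ p ∈ S.filter (fun p => f p = e), p)))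
    (fun i => i.elim (f 2) (fun i => i.elim (f 3) (fun e => (e : ℕ))))
  · rintro (_ | _ | e)
    · refine ⟨by norm_num, ?_⟩
      show ((2 : ℕ) : ℝ) ≤ Y
      push_cast
      linarith
    · refine ⟨by norm_num, ?_⟩
      show ((3 : ℕ) : ℝ) ≤ Y
      push_cast
      linarith
    · show 0 < ∏ p ∈ S.filter (fun p => f p = e), p ∧
        ((∏ p ∈ S.filter (fun p => f p = e), p : ℕ) : ℝ) ≤ Y
      have hpos : ∀ p ∈ S, 1 ≤ p := fun p hp => by
        rw [hS, mem_filter] at hp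
        omega
      refine ⟨prod_pos (fun p hp => hpos p (mem_filter.mp hp).1), ?_⟩
      refine le_trans ?_ hr
      have : ∏ p ∈ S.filter (fun p => f p = e), p ≤ rad m := by
        unfold rad
        refine prod_le_prod_of_subset_of_one_le' ?_ ?_
        · intro p hp
          exact (mem_filter.mp (mem_filter.mp hp).1).1
        · intro p hp _
          exact (Nat.prime_of_mem_primeFactors hp).one_le
      exact_mod_cast this
  · rw [Fintype.prod_option, Fintype.prod_option]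
    simp only [Option.elim_none, Option.elim_some]
    rw [← mul_assoc]
    conv_lhs => rw [hm2]
    congr 1
    exact (prod_coe_sort (expo m)
      (fun e => (∏ p ∈ S.filter (fun p => f p = e), p) ^ e)).symm

/-- coprime pairs of positive integers with at most `n` exponents -/
def Pr (n : ℕ) (q : ℕ × ℕ) : Prop :=
  0 < q.1 ∧ 0 < q.2 ∧ Nat.Coprime q.1 q.2 ∧ (expo (q.1 * q.2 * (q.1 + q.2))).card ≤ n

theorem core_fixed (n : ℕ) (ε : ℝ) (hε : 0 < ε) : ∃ K C : ℝ, 0 < K ∧ 0 < C ∧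
    ∀ Y : ℝ, 3 ≤ Y → ∀ Q : Finset (ℕ × ℕ), (∀ q ∈ Q, Pr n q ∧
      (rad (q.1 * q.2 * (q.1 + q.2)) : ℝ) ≤ Y ∧ Y ^ K ≤ ((q.1 + q.2 : ℕ) : ℝ)) →
      (Q.card : ℝ) ≤ C * Y ^ ε := by
  obtain ⟨K, C, hK, hC, h⟩ := nt_count (n + 2) ε hε
  refine ⟨K, C, hK, hC, fun Y hY Q hQ => ?_⟩
  refine h Y (by linarith) Q (fun q hq => ?_)
  obtain ⟨⟨h1, h2, h3, h4⟩, h5, h6⟩ := hQ q hq
  have hs : 0 < q.1 + q.2 := by omega
  have hne : q.1 * q.2 * (q.1 + q.2) ≠ 0 := by positivity
  have hc1 : Nat.Coprime q.1 (q.2 * (q.1 + q.2)) :=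
    Nat.Coprime.mul_right h3 (by simpa using h3)
  have hc2 : Nat.Coprime q.2 (q.1 * (q.1 + q.2)) :=
    Nat.Coprime.mul_right h3.symm (by simpa using h3.symm)
  have hc3 : Nat.Coprime (q.1 + q.2) (q.1 * q.2) :=
    Nat.Coprime.mul_right (by simpa using h3.symm) (by simpa using h3)
  have key : ∀ a b : ℕ, 0 < a → 0 < b → Nat.Coprime a b → a * b = q.1 * q.2 * (q.1 + q.2) →
      NB (n + 2) Y a := by
    intro a b ha hb hab he
    refine nb_of_expo ha hY ?_ ?_
    · refine le_trans ?_ h5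
      exact_mod_cast rad_le_of_dvd ⟨b, he.symm⟩ hne
    · refine le_trans (card_le_card (expo_subset hab hb.ne')) ?_
      rw [he]
      exact h4
  exact ⟨h1, h2, h3, key _ _ h1 (by positivity) hc1 (by ring),
    key _ _ h2 (by positivity) hc2 (by ring), key _ _ hs (by positivity) hc3 (by ring), h6⟩

/-- total count of the pairs -/
theorem core_total (n : ℕ) : ∃ L C : ℝ, 1 ≤ L ∧ 0 < C ∧
    ∀ Y : ℝ, 3 ≤ Y → ∀ Q : Finset (ℕ × ℕ), (∀ q ∈ Q, Pr n q ∧
      (rad (q.1 * q.2 * (q.1 + q.2)) : ℝ) ≤ Y) → (Q.card : ℝ) ≤ C * Y ^ L := by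
  classical
  obtain ⟨K, C, hK, hC, h⟩ := core_fixed n 1 one_pos
  refine ⟨2 * K + 1, C + 4, by linarith, by linarith, fun Y hY Q hQ => ?_⟩
  have hY0 : 0 < Y := by linarith
  have hY1 : 1 ≤ Y := by linarith
  set Q1 := Q.filter (fun q => Y ^ K ≤ ((q.1 + q.2 : ℕ) : ℝ)) with hQ1
  set Q2 := Q.filter (fun q => ¬ Y ^ K ≤ ((q.1 + q.2 : ℕ) : ℝ)) with hQ2
  have hsplit : Q.card = Q1.card + Q2.card := (card_filter_add_card_filter_not _).symm
  have h1 : (Q1.card : ℝ) ≤ C * Y ^ (1 : ℝ) := by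
    refine h Y hY Q1 (fun q hq => ?_)
    rw [hQ1, mem_filter] at hq
    obtain ⟨h2, h3⟩ := hQ q hq.1
    exact ⟨h2, h3, hq.2⟩
  have hYK1 : 1 ≤ Y ^ K := Real.one_le_rpow hY1 hK.le
  have h2 : (Q2.card : ℝ) ≤ (Y ^ K + 1) ^ 2 := by
    have hsub : Q2 ⊆ range (⌊Y ^ K⌋₊ + 1) ×ˢ range (⌊Y ^ K⌋₊ + 1) := by
      intro q hq
      rw [hQ2, mem_filter] at hq
      have h3 := not_le.mp hq.2
      have h4 : q.1 + q.2 ≤ ⌊Y ^ K⌋₊ := Nat.le_floor h3.le
      rw [mem_product, mem_range, mem_range]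
      omega
    have h3 := card_le_card hsub
    rw [card_product, card_range] at h3
    have h4 : ((⌊Y ^ K⌋₊ + 1 : ℕ) : ℝ) ≤ Y ^ K + 1 := by
      push_cast
      have := Nat.floor_le (by positivity : 0 ≤ Y ^ K)
      linarith
    calc (Q2.card : ℝ) ≤ ((⌊Y ^ K⌋₊ + 1 : ℕ) : ℝ) * ((⌊Y ^ K⌋₊ + 1 : ℕ) : ℝ) := by
          exact_mod_cast h3
      _ ≤ (Y ^ K + 1) * (Y ^ K + 1) := by gcongr
      _ = _ := by ring
  have h3 : (Y ^ K + 1) ^ 2 ≤ 4 * Y ^ (2 * K + 1) := by
    have h4 : Y ^ (2 * K + 1) = (Y ^ K) ^ 2 * Y := by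
      rw [Real.rpow_add hY0, Real.rpow_one, mul_comm 2 K, Real.rpow_mul hY0.le]
      norm_num
    rw [h4]
    have h5 : (Y ^ K + 1) ^ 2 ≤ 4 * (Y ^ K) ^ 2 := by nlinarith
    have h6 : (Y ^ K) ^ 2 ≤ (Y ^ K) ^ 2 * Y := le_mul_of_one_le_right (by positivity) hY1
    linarith
  have h4 : Y ^ (1 : ℝ) ≤ Y ^ (2 * K + 1) :=
    Real.rpow_le_rpow_of_exponent_le hY1 (by linarith)
  rw [hsplit]
  push_cast
  nlinarith [mul_le_mul_of_nonneg_left h4 hC.le]

/-- **the count used for elliptic curves** -/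
theorem core (n : ℕ) (ε A c : ℝ) (hε : 0 < ε) (hA : 3 ≤ A) (hc : 0 < c) :
    ∃ K C : ℝ, 0 < K ∧ 0 < C ∧
    ∀ X : ℝ, 1 ≤ X → ∀ Q : Finset (ℕ × ℕ), (∀ q ∈ Q, Pr n q ∧ ∃ M : ℝ, 1 ≤ M ∧ M ≤ X ∧
      (rad (q.1 * q.2 * (q.1 + q.2)) : ℝ) ≤ A * M ∧ c * M ^ K ≤ ((q.1 + q.2 : ℕ) : ℝ)) →
      (Q.card : ℝ) ≤ C * X ^ ε := by
  classical
  obtain ⟨K₀, C₀, hK₀, hC₀, h₀⟩ := core_fixed n ε hε
  obtain ⟨L, C₁, hL, hC₁, h₁⟩ := core_total n
  have hA0 : 0 < A := by linarith
  have hL0 : 0 < L := by linarith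
  set δ : ℝ := ε / L with hδ
  have hδ0 : 0 < δ := by positivity
  -- `K` with `c X ^ (δ K) ≥ (A X) ^ K₀` for `X ≥ 2`
  set B : ℝ := A ^ K₀ / c with hB
  have hB0 : 0 < B := by positivity
  have hl2 : 0 < Real.log 2 := Real.log_pos (by norm_num)
  set T : ℝ := max 0 (Real.log B / Real.log 2) with hT
  have hT0 : 0 ≤ T := le_max_left _ _
  set K : ℝ := (T + K₀) / δ with hKdef
  have hK : 0 < K := by positivity
  have hkey : ∀ X : ℝ, 2 ≤ X → ∀ M : ℝ, X ^ δ ≤ M → (A * X) ^ K₀ ≤ c * M ^ K := by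
    intro X hX M hM
    have hX0 : 0 < X := by linarith
    have h1 : X ^ (T + K₀) ≤ M ^ K := by
      have h2 : X ^ (T + K₀) = (X ^ δ) ^ K := by
        rw [← Real.rpow_mul hX0.le, hKdef]
        congr 1
        field_simp
      rw [h2]
      exact Real.rpow_le_rpow (by positivity) hM hK.le
    have h3 : B ≤ X ^ T := by
      have h4 : Real.log B ≤ T * Real.log 2 := by
        have : Real.log B / Real.log 2 ≤ T := le_max_right _ _
        rwa [div_le_iff₀ hl2] at this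
      have h5 : T * Real.log 2 ≤ T * Real.log X :=
        mul_le_mul_of_nonneg_left (Real.log_le_log (by norm_num) hX) hT0
      rw [← Real.log_le_log_iff hB0 (by positivity), Real.log_rpow hX0]
      linarith
    rw [Real.mul_rpow hA0.le hX0.le]
    have h6 : A ^ K₀ = c * B := by
      rw [hB]; field_simp
    rw [h6]
    calc c * B * X ^ K₀ ≤ c * X ^ T * X ^ K₀ := by gcongr
      _ = c * X ^ (T + K₀) := by rw [Real.rpow_add hX0]; ring
      _ ≤ c * M ^ K := by gcongr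
  refine ⟨K, C₀ * A ^ ε + C₁ * (2 * A) ^ L + C₁ * A ^ L, hK, by positivity,
    fun X hX Q hQ => ?_⟩
  have hX0 : 0 < X := by linarith
  have hXε : 1 ≤ X ^ ε := Real.one_le_rpow hX hε.le
  rcases lt_or_ge X 2 with hX2 | hX2
  · -- bounded `X`
    have h1 : (Q.card : ℝ) ≤ C₁ * (2 * A) ^ L := by
      refine h₁ (2 * A) (by linarith) Q (fun q hq => ?_)
      obtain ⟨h2, M, h3, h4, h5, -⟩ := hQ q hq
      refine ⟨h2, h5.trans ?_⟩
      nlinarith
    have h2 : C₁ * (2 * A) ^ L ≤ C₀ * A ^ ε + C₁ * (2 * A) ^ L + C₁ * A ^ L := by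
      have : 0 < C₀ * A ^ ε := by positivity
      have : 0 < C₁ * A ^ L := by positivity
      linarith
    have h3 : 0 < C₀ * A ^ ε + C₁ * (2 * A) ^ L + C₁ * A ^ L := by positivity
    nlinarith
  -- split
  set P : ℕ × ℕ → Prop := fun q => (rad (q.1 * q.2 * (q.1 + q.2)) : ℝ) ≤ A * X ^ δ with hP
  set Q1 := Q.filter P with hQ1
  set Q2 := Q.filter (fun q => ¬ P q) with hQ2
  have hsplit : Q.card = Q1.card + Q2.card := (card_filter_add_card_filter_not _).symm
  have hXδ : 1 ≤ X ^ δ := Real.one_le_rpow hX hδ0.le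
  have h1 : (Q1.card : ℝ) ≤ C₁ * A ^ L * X ^ ε := by
    have h2 : (Q1.card : ℝ) ≤ C₁ * (A * X ^ δ) ^ L := by
      refine h₁ (A * X ^ δ) (by nlinarith) Q1 (fun q hq => ?_)
      rw [hQ1, mem_filter] at hq
      exact ⟨(hQ q hq.1).1, hq.2⟩
    have h3 : (A * X ^ δ) ^ L = A ^ L * X ^ ε := by
      rw [Real.mul_rpow hA0.le (by positivity), ← Real.rpow_mul hX0.le]
      congr 2
      rw [hδ]
      field_simp
    rw [h3] at h2
    linarith
  have h2 : (Q2.card : ℝ) ≤ C₀ * A ^ ε * X ^ ε := by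
    have h3 : (Q2.card : ℝ) ≤ C₀ * (A * X) ^ ε := by
      refine h₀ (A * X) (by nlinarith) Q2 (fun q hq => ?_)
      rw [hQ2, mem_filter] at hq
      obtain ⟨h4, M, h5, h6, h7, h8⟩ := hQ q hq.1
      have h9 : A * X ^ δ < A * M := (not_le.mp hq.2).trans_le h7
      have h10 : X ^ δ < M := lt_of_mul_lt_mul_left h9 hA0.le
      refine ⟨h4, h7.trans (by gcongr), (hkey X hX2 M h10.le).trans h8⟩
    rw [Real.mul_rpow hA0.le hX0.le] at h3
    linarith
  have h3 : 0 ≤ C₁ * (2 * A) ^ L * X ^ ε := by positivity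
  rw [hsplit]
  push_cast
  nlinarith

end Pool.Agent.Q130.SZ
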