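import Pool.Agent.H925R.Szpiro.Twist

/-!
From global minimal Weierstrass equations to the models `y² = x³ - a x - b` (copy of the lemmas of
`H39R3.Model`, `H39R3.Model2` and `H39R3.ModMain`, to keep the imports light).
-/

set_option autoImplicit false

namespace Pool.Agent.Q130.SZ

open Finset Pool.Agent.H925R.Szpiro




/-- global minimality: `Δ ≠ 0` and `|Δ|` is least among the integral Weierstrass equations
isomorphic to `W` over `ℚ` -/
def GMin (W : WeierstrassCurve ℤ) : Prop :=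
  W.Δ ≠ 0 ∧ ∀ W' : WeierstrassCurve ℤ,
    (∃ C : WeierstrassCurve.VariableChange ℚ,
      C • W.map (Int.castRingHom ℚ) = W'.map (Int.castRingHom ℚ)) → |W.Δ| ≤ |W'.Δ|

/-- all 2-torsion points are rational -/
def FullT (W : WeierstrassCurve ℤ) : Prop :=
  ∃ r₁ r₂ r₃ : ℚ, ∀ x : ℚ,
    4 * x ^ 3 + W.b₂ * x ^ 2 + 2 * W.b₄ * x + W.b₆ = 4 * (x - r₁) * (x - r₂) * (x - r₃)

/-- prime-to-6 part of the conductor -/
def condW (W : WeierstrassCurve ℤ) : ℕ :=
  ∏ p ∈ W.Δ.natAbs.primeFactors.filter (fun p => 5 ≤ p), if (p : ℤ) ∣ W.c₄ then p ^ 2 else p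

/-- the curve `y² = x³ - a x - b` -/
def shortW (a b : ℤ) : WeierstrassCurve ℤ := ⟨0, 0, 0, -a, -b⟩

theorem shortW_c4 (a b : ℤ) : (shortW a b).c₄ = 48 * a := by
  simp only [shortW, WeierstrassCurve.c₄, WeierstrassCurve.b₂, WeierstrassCurve.b₄]
  ring

theorem shortW_c6 (a b : ℤ) : (shortW a b).c₆ = 864 * b := by
  simp only [shortW, WeierstrassCurve.c₆, WeierstrassCurve.b₂, WeierstrassCurve.b₄,
    WeierstrassCurve.b₆]
  ring

theorem shortW_Δ (a b : ℤ) : (shortW a b).Δ = 16 * D a b := by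
  simp only [shortW, WeierstrassCurve.Δ, WeierstrassCurve.b₂, WeierstrassCurve.b₄,
    WeierstrassCurve.b₆, WeierstrassCurve.b₈, D]
  ring

/-- the isomorphism over `ℚ` -/
theorem iso_short (W : WeierstrassCurve ℤ) (v : ℚ) (hv : v ≠ 0) (a b : ℤ)
    (ha : 48 * (a : ℚ) = v ^ 4 * W.c₄) (hb : 864 * (b : ℚ) = v ^ 6 * W.c₆) :
    ∃ C : WeierstrassCurve.VariableChange ℚ,
      C • W.map (Int.castRingHom ℚ) = (shortW a b).map (Int.castRingHom ℚ) := by
  set V : WeierstrassCurve ℚ := W.map (Int.castRingHom ℚ) with hV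
  have hc4 : V.c₄ = (W.c₄ : ℚ) := by rw [hV, WeierstrassCurve.map_c₄]; rfl
  have hc6 : V.c₆ = (W.c₆ : ℚ) := by rw [hV, WeierstrassCurve.map_c₆]; rfl
  let u : ℚˣ := Units.mk0 v⁻¹ (inv_ne_zero hv)
  let s : ℚ := -V.a₁ / 2
  let r : ℚ := -(V.a₂ - s * V.a₁ - s ^ 2) / 3
  let t : ℚ := -(V.a₃ + r * V.a₁) / 2
  let C : WeierstrassCurve.VariableChange ℚ := ⟨u, r, s, t⟩
  have hu : ((u⁻¹ : ℚˣ) : ℚ) = v := by
    simp [u]
  have h1 : (C • V).a₁ = 0 := by
    rw [WeierstrassCurve.variableChange_a₁]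
    simp only [C, s]
    ring
  have h2 : (C • V).a₂ = 0 := by
    rw [WeierstrassCurve.variableChange_a₂]
    simp only [C, r]
    ring
  have h3 : (C • V).a₃ = 0 := by
    rw [WeierstrassCurve.variableChange_a₃]
    simp only [C, t]
    ring
  have k4 : (C • V).c₄ = 48 * (a : ℚ) := by
    rw [WeierstrassCurve.variableChange_c₄, hc4, ha]
    simp only [C]
    rw [hu]
  have k6 : (C • V).c₆ = 864 * (b : ℚ) := by
    rw [WeierstrassCurve.variableChange_c₆, hc6, hb]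
    simp only [C]
    rw [hu]
  have h4 : (C • V).a₄ = -(a : ℚ) := by
    have := k4
    unfold WeierstrassCurve.c₄ WeierstrassCurve.b₂ WeierstrassCurve.b₄ at this
    rw [h1, h2, h3] at this
    linarith
  have h6 : (C • V).a₆ = -(b : ℚ) := by
    have := k6
    unfold WeierstrassCurve.c₆ WeierstrassCurve.b₂ WeierstrassCurve.b₄ WeierstrassCurve.b₆ at this
    rw [h1, h2, h3] at this
    linarith
  refine ⟨C, ?_⟩
  refine WeierstrassCurve.ext ?_ ?_ ?_ ?_ ?_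
  · rw [h1]; simp [shortW]
  · rw [h2]; simp [shortW]
  · rw [h3]; simp [shortW]
  · rw [h4]; simp [shortW]
  · rw [h6]; simp [shortW]

theorem D_scale (u : ℚ) (a b a' b' : ℤ) (ha : (a' : ℚ) = u ^ 4 * a) (hb : (b' : ℚ) = u ^ 6 * b) :
    ((D a' b' : ℤ) : ℚ) = u ^ 12 * D a b := by
  unfold D
  push_cast
  rw [ha, hb]
  ring

theorem D_c (W : WeierstrassCurve ℤ) :
    D (27 * W.c₄) (54 * W.c₆) = 78732 * 1728 * W.Δ := by
  have := W.c_relation
  unfold D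
  linear_combination (-78732) * this

/-- a pair with no common `(p⁴, p⁶)` factor -/
theorem isMin_prime {a b : ℤ} (h : IsMin a b) (p : ℕ) (hp : 2 ≤ p) (ha : (p : ℤ) ^ 4 ∣ a)
    (hb : (p : ℤ) ^ 6 ∣ b) : False := by
  obtain ⟨a', rfl⟩ := ha
  obtain ⟨b', rfl⟩ := hb
  have hp0 : (p : ℚ) ≠ 0 := by
    have : p ≠ 0 := by omega
    exact_mod_cast this
  have h1 := h.2 ((p : ℚ)⁻¹) a' b' (inv_ne_zero hp0) (by push_cast; field_simp)
    (by push_cast; field_simp)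
  have h2 : D ((p : ℤ) ^ 4 * a') ((p : ℤ) ^ 6 * b') = (p : ℤ) ^ 12 * D a' b' := by
    unfold D
    ring
  have h3 : D a' b' ≠ 0 := by
    intro h0
    apply h.1
    rw [h2, h0, mul_zero]
  rw [h2, abs_mul] at h1
  have h4 : 0 < |D a' b'| := abs_pos.mpr h3
  have h5 : (2 : ℤ) ^ 12 ≤ |(p : ℤ) ^ 12| := by
    rw [abs_of_nonneg (by positivity)]
    exact pow_le_pow_left₀ (by norm_num) (by exact_mod_cast hp) 12
  nlinarith





theorem exists_min (W : WeierstrassCurve ℤ) (hΔ : W.Δ ≠ 0) :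
    ∃ (u : ℚ) (a b : ℤ), 0 < u ∧ (a : ℚ) = u ^ 4 * (27 * W.c₄ : ℤ) ∧
      (b : ℚ) = u ^ 6 * (54 * W.c₆ : ℤ) ∧ IsMin a b ∧ u ≤ 1 := by
  classical
  let P : ℕ → Prop := fun n => ∃ (u : ℚ) (a b : ℤ), 0 < u ∧ (a : ℚ) = u ^ 4 * (27 * W.c₄ : ℤ) ∧
      (b : ℚ) = u ^ 6 * (54 * W.c₆ : ℤ) ∧ n = (D a b).natAbs
  have hex : ∃ n, P n := ⟨_, 1, 27 * W.c₄, 54 * W.c₆, one_pos, by push_cast; ring,
    by push_cast; ring, rfl⟩
  obtain ⟨u, a, b, hu, ha, hb, hn⟩ := Nat.find_spec hex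
  have hD0 : D (27 * W.c₄) (54 * W.c₆) ≠ 0 := by
    rw [D_c]
    exact mul_ne_zero (by norm_num) hΔ
  have hDs : ((D a b : ℤ) : ℚ) = u ^ 12 * D (27 * W.c₄) (54 * W.c₆) := D_scale u _ _ _ _ ha hb
  have hD : D a b ≠ 0 := by
    intro h0
    rw [h0] at hDs
    have h1 : ((D (27 * W.c₄) (54 * W.c₆) : ℤ) : ℚ) ≠ 0 := by exact_mod_cast hD0
    have h2 : u ^ 12 * (D (27 * W.c₄) (54 * W.c₆) : ℚ) ≠ 0 := mul_ne_zero (by positivity) h1
    exact h2 (by rw [← hDs]; norm_num)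
  refine ⟨u, a, b, hu, ha, hb, ⟨hD, ?_⟩, ?_⟩
  · intro v a' b' hv ha' hb'
    have h1 : P (D a' b').natAbs := by
      refine ⟨|v| * u, a', b', by positivity, ?_, ?_, rfl⟩
      · rw [ha', ha, mul_pow, Even.pow_abs (by decide)]
        ring
      · rw [hb', hb, mul_pow, Even.pow_abs (by decide)]
        ring
    have h2 := Nat.find_min' hex h1
    rw [hn] at h2
    rw [Int.abs_eq_natAbs, Int.abs_eq_natAbs]
    exact_mod_cast h2
  · by_contra hcon
    push Not at hcon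
    have h1 : P (D (27 * W.c₄) (54 * W.c₆)).natAbs :=
      ⟨1, 27 * W.c₄, 54 * W.c₆, one_pos, by push_cast; ring, by push_cast; ring, rfl⟩
    have h2 := Nat.find_min' hex h1
    rw [hn] at h2
    have h3 : |((D a b : ℤ) : ℚ)| ≤ |((D (27 * W.c₄) (54 * W.c₆) : ℤ) : ℚ)| := by
      rw [← Int.cast_abs, ← Int.cast_abs, Int.abs_eq_natAbs, Int.abs_eq_natAbs]
      exact_mod_cast h2
    rw [hDs, abs_mul, abs_of_pos (by positivity : (0 : ℚ) < u ^ 12)] at h3
    have h4 : 0 < |((D (27 * W.c₄) (54 * W.c₆) : ℤ) : ℚ)| := abs_pos.mpr (by exact_mod_cast hD0)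
    have h5 : 1 < u ^ 12 := one_lt_pow₀ hcon (by norm_num)
    nlinarith

theorem full_short (W : WeierstrassCurve ℤ) (hF : FullT W) (u : ℚ) (hu : u ≠ 0) (a b : ℤ)
    (ha : (a : ℚ) = u ^ 4 * (27 * W.c₄ : ℤ)) (hb : (b : ℚ) = u ^ 6 * (54 * W.c₆ : ℤ)) :
    FullS a b := by
  obtain ⟨r₁, r₂, r₃, h⟩ := hF
  refine ⟨u ^ 2 * (36 * r₁ + 3 * W.b₂), u ^ 2 * (36 * r₂ + 3 * W.b₂),
    u ^ 2 * (36 * r₃ + 3 * W.b₂), fun x => ?_⟩
  have h1 := h ((x / u ^ 2 - 3 * W.b₂) / 36)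
  have hx : x = u ^ 2 * (x / u ^ 2) := by field_simp
  set y : ℚ := x / u ^ 2 with hy
  have hc4 : ((W.c₄ : ℤ) : ℚ) = (W.b₂ : ℚ) ^ 2 - 24 * W.b₄ := by
    unfold WeierstrassCurve.c₄
    push_cast
    ring
  have hc6 : ((W.c₆ : ℤ) : ℚ) = -(W.b₂ : ℚ) ^ 3 + 36 * W.b₂ * W.b₄ - 216 * W.b₆ := by
    unfold WeierstrassCurve.c₆
    push_cast
    ring
  rw [ha, hb]
  push_cast
  rw [hc4, hc6, hx]
  linear_combination (11664 * u ^ 6) * h1

theorem ints (W : WeierstrassCurve ℤ) (hW : GMin W) (hF : FullT W) :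
    ∃ (a b : ℤ) (r s : ℕ), IsMin a b ∧ FullS a b ∧ 0 < s ∧ s ≤ r ∧ r ∣ 6 ∧
      48 * a * (s : ℤ) ^ 4 = (r : ℤ) ^ 4 * W.c₄ ∧ 864 * b * (s : ℤ) ^ 6 = (r : ℤ) ^ 6 * W.c₆ ∧
      (16 * D a b) * (s : ℤ) ^ 12 = (r : ℤ) ^ 12 * W.Δ ∧ r ≤ 6 * s := by
  obtain ⟨u, a, b, hu, ha, hb, hmin, hu1⟩ := exists_min W hW.1
  set v : ℚ := 6 * u with hv
  have hv0 : 0 < v := by positivity
  have hva : 48 * (a : ℚ) = v ^ 4 * W.c₄ := by
    rw [ha, hv]
    push_cast
    ring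
  have hvb : 864 * (b : ℚ) = v ^ 6 * W.c₆ := by
    rw [hb, hv]
    push_cast
    ring
  have hvD : 16 * ((D a b : ℤ) : ℚ) = v ^ 12 * W.Δ := by
    have h1 : ((D a b : ℤ) : ℚ) = u ^ 12 * D (27 * W.c₄) (54 * W.c₆) := D_scale u _ _ _ _ ha hb
    rw [h1, D_c, hv]
    push_cast
    ring
  -- `1 ≤ v`
  have hv1 : 1 ≤ v := by
    by_contra hcon
    push Not at hcon
    have h1 := hW.2 (shortW a b) (iso_short W v hv0.ne' a b hva hvb)
    rw [shortW_Δ] at h1
    have h2 : |((W.Δ : ℤ) : ℚ)| ≤ |((16 * D a b : ℤ) : ℚ)| := by exact_mod_cast h1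
    push_cast at h2
    rw [hvD, abs_mul, abs_of_pos (by positivity : (0 : ℚ) < v ^ 12)] at h2
    have h3 : 0 < |((W.Δ : ℤ) : ℚ)| := abs_pos.mpr (by exact_mod_cast hW.1)
    have h4 : v ^ 12 < 1 := pow_lt_one₀ hv0.le hcon (by norm_num)
    nlinarith
  -- numerator and denominator
  set r : ℕ := v.num.natAbs with hr
  set s : ℕ := v.den with hs
  have hs0 : 0 < s := v.den_pos
  have hnum : (v.num : ℤ) = (r : ℤ) := by
    have : 0 < v.num := Rat.num_pos.mpr hv0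
    rw [hr]
    omega
  have hvrs : v = (r : ℚ) / s := by
    have := Rat.num_div_den v
    rw [hnum, Int.cast_natCast] at this
    exact this.symm
  have hsQ : (0 : ℚ) < s := by exact_mod_cast hs0
  have hcop : Nat.Coprime r s := v.reduced
  have e4 : 48 * a * (s : ℤ) ^ 4 = (r : ℤ) ^ 4 * W.c₄ := by
    have h1 := hva
    rw [hvrs, div_pow, div_mul_eq_mul_div, eq_div_iff (by positivity)] at h1
    exact_mod_cast h1
  have e6 : 864 * b * (s : ℤ) ^ 6 = (r : ℤ) ^ 6 * W.c₆ := by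
    have h1 := hvb
    rw [hvrs, div_pow, div_mul_eq_mul_div, eq_div_iff (by positivity)] at h1
    exact_mod_cast h1
  have e12 : (16 * D a b) * (s : ℤ) ^ 12 = (r : ℤ) ^ 12 * W.Δ := by
    have h1 := hvD
    rw [hvrs, div_pow, div_mul_eq_mul_div, eq_div_iff (by positivity)] at h1
    exact_mod_cast h1
  have hsr : s ≤ r := by
    rw [hvrs, le_div_iff₀ hsQ, one_mul] at hv1
    exact_mod_cast hv1
  have hrs6 : r ≤ 6 * s := by
    have h1 : v ≤ 6 := by rw [hv]; linarith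
    rw [hvrs, div_le_iff₀ hsQ] at h1
    exact_mod_cast h1
  have hcopZ4 : IsCoprime ((r : ℤ) ^ 4) ((s : ℤ) ^ 4) :=
    (Nat.isCoprime_iff_coprime.mpr hcop).pow
  have hcopZ6 : IsCoprime ((r : ℤ) ^ 6) ((s : ℤ) ^ 6) :=
    (Nat.isCoprime_iff_coprime.mpr hcop).pow
  have d4 : (r : ℤ) ^ 4 ∣ 48 * a := hcopZ4.dvd_of_dvd_mul_right ⟨W.c₄, e4⟩
  have d6 : (r : ℤ) ^ 6 ∣ 864 * b := hcopZ6.dvd_of_dvd_mul_right ⟨W.c₆, e6⟩
  -- large primes do not divide `r`
  have hbigp : ∀ p : ℕ, p.Prime → 5 ≤ p → ¬ p ∣ r := by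
    intro p hp h5 hdvd
    have hpZ : Prime (p : ℤ) := Nat.prime_iff_prime_int.mp hp
    have hd4 : (p : ℤ) ^ 4 ∣ 48 * a := (pow_dvd_pow_of_dvd (by exact_mod_cast hdvd) 4).trans d4
    have hd6 : (p : ℤ) ^ 6 ∣ 864 * b := (pow_dvd_pow_of_dvd (by exact_mod_cast hdvd) 6).trans d6
    have hn2 : ¬ p ∣ 2 := fun h => by have := Nat.le_of_dvd (by norm_num) h; omega
    have hn3 : ¬ p ∣ 3 := fun h => by have := Nat.le_of_dvd (by norm_num) h; omega
    have hc2 : Nat.Coprime p 2 := (Nat.Prime.coprime_iff_not_dvd hp).mpr hn2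
    have hc3 : Nat.Coprime p 3 := (Nat.Prime.coprime_iff_not_dvd hp).mpr hn3
    have hc48 : Nat.Coprime p 48 := by
      have : (48 : ℕ) = 2 ^ 4 * 3 := by norm_num
      rw [this]
      exact (hc2.pow_right 4).mul_right hc3
    have hc864 : Nat.Coprime p 864 := by
      have : (864 : ℕ) = 2 ^ 5 * 3 ^ 3 := by norm_num
      rw [this]
      exact (hc2.pow_right 5).mul_right (hc3.pow_right 3)
    have k4 : (p : ℤ) ^ 4 ∣ a := by
      have h1 : IsCoprime ((p : ℤ) ^ 4) 48 := by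
        have := (Nat.isCoprime_iff_coprime.mpr hc48).pow_left (m := 4)
        exact_mod_cast this
      exact h1.dvd_of_dvd_mul_left hd4
    have k6 : (p : ℤ) ^ 6 ∣ b := by
      have h1 : IsCoprime ((p : ℤ) ^ 6) 864 := by
        have := (Nat.isCoprime_iff_coprime.mpr hc864).pow_left (m := 6)
        exact_mod_cast this
      exact h1.dvd_of_dvd_mul_left hd6
    exact isMin_prime hmin p (by omega) k4 k6
  have h4n : ¬ 4 ∣ r := by
    intro hdvd
    have hd4 : (4 : ℤ) ^ 4 ∣ 48 * a := (pow_dvd_pow_of_dvd (by exact_mod_cast hdvd) 4).trans d4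
    have hd6 : (4 : ℤ) ^ 6 ∣ 864 * b := (pow_dvd_pow_of_dvd (by exact_mod_cast hdvd) 6).trans d6
    have k4 : ((2 : ℕ) : ℤ) ^ 4 ∣ a := by
      norm_num at hd4 ⊢
      omega
    have k6 : ((2 : ℕ) : ℤ) ^ 6 ∣ b := by
      norm_num at hd6 ⊢
      omega
    exact isMin_prime hmin 2 le_rfl k4 k6
  have h9n : ¬ 9 ∣ r := by
    intro hdvd
    have hd4 : (9 : ℤ) ^ 4 ∣ 48 * a := (pow_dvd_pow_of_dvd (by exact_mod_cast hdvd) 4).trans d4
    have hd6 : (9 : ℤ) ^ 6 ∣ 864 * b := (pow_dvd_pow_of_dvd (by exact_mod_cast hdvd) 6).trans d6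
    have k4 : ((3 : ℕ) : ℤ) ^ 4 ∣ a := by
      norm_num at hd4 ⊢
      omega
    have k6 : ((3 : ℕ) : ℤ) ^ 6 ∣ b := by
      norm_num at hd6 ⊢
      omega
    exact isMin_prime hmin 3 (by norm_num) k4 k6
  have hr0 : r ≠ 0 := by omega
  have hr6 : r ∣ 6 := by
    have hsqf : Squarefree r := by
      rw [Nat.squarefree_iff_prime_squarefree]
      intro p hp hpp
      rcases Nat.lt_or_ge p 5 with h | h
      · interval_cases p
        · exact absurd hp (by norm_num)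
        · exact absurd hp (by norm_num)
        · exact h4n (by simpa using hpp)
        · exact h9n (by simpa using hpp)
        · exact absurd hp (by norm_num)
      · exact hbigp p hp h ((dvd_mul_right p p).trans hpp)
    have h1 := Nat.prod_primeFactors_of_squarefree hsqf
    rw [← h1]
    have h2 : r.primeFactors ⊆ ({2, 3} : Finset ℕ) := by
      intro p hp
      have hp' := Nat.prime_of_mem_primeFactors hp
      have hd := Nat.dvd_of_mem_primeFactors hp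
      rcases Nat.lt_or_ge p 5 with h | h
      · interval_cases p
        · exact absurd hp' (by norm_num)
        · exact absurd hp' (by norm_num)
        · simp
        · simp
        · exact absurd hp' (by norm_num)
      · exact absurd hd (hbigp p hp' h)
    have h3 := Finset.prod_dvd_prod_of_subset _ _ (fun p : ℕ => p) h2
    simpa using h3
  exact ⟨a, b, r, s, hmin, full_short W hF u hu.ne' a b ha hb, hs0, hsr, hr6, e4, e6, e12, hrs6⟩





theorem condW_pos (W : WeierstrassCurve ℤ) : 0 < condW W := by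
  unfold condW
  refine Finset.prod_pos fun p hp => ?_
  have h5 : 5 ≤ p := (mem_filter.mp hp).2
  split_ifs
  · positivity
  · omega

theorem cond_le (W : WeierstrassCurve ℤ) (a b : ℤ) (r s : ℕ) (hr6 : r ∣ 6)
    (e4 : 48 * a * (s : ℤ) ^ 4 = (r : ℤ) ^ 4 * W.c₄)
    (e12 : (16 * D a b) * (s : ℤ) ^ 12 = (r : ℤ) ^ 12 * W.Δ) (hΔ : W.Δ ≠ 0) :
    condS a b ≤ condW W := by
  have hpr : ∀ p : ℕ, p.Prime → 5 ≤ p → ¬ p ∣ r := by
    intro p hp h5 hd
    have h1 : p ∣ 2 * 3 := hd.trans hr6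
    rcases (Nat.Prime.dvd_mul hp).mp h1 with h | h
    · have := Nat.le_of_dvd (by norm_num) h; omega
    · have := Nat.le_of_dvd (by norm_num) h; omega
  refine Nat.le_of_dvd (condW_pos W) ?_
  unfold condS condW
  have hsub : (D a b).natAbs.primeFactors.filter (fun p => 5 ≤ p) ⊆
      W.Δ.natAbs.primeFactors.filter (fun p => 5 ≤ p) := by
    intro p hp
    rw [mem_filter] at hp ⊢
    obtain ⟨hp1, h5⟩ := hp
    have hpp := Nat.prime_of_mem_primeFactors hp1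
    have hd := Nat.dvd_of_mem_primeFactors hp1
    refine ⟨Nat.mem_primeFactors.mpr ⟨hpp, ?_, by simpa using hΔ⟩, h5⟩
    have hpZ : Prime (p : ℤ) := Nat.prime_iff_prime_int.mp hpp
    have hdZ : (p : ℤ) ∣ D a b := Int.natCast_dvd.mpr hd
    have h1 : (p : ℤ) ∣ (r : ℤ) ^ 12 * W.Δ := by
      rw [← e12]
      exact (hdZ.mul_left 16).mul_right _
    rcases hpZ.dvd_or_dvd h1 with h | h
    · exact absurd (by exact_mod_cast hpZ.dvd_of_dvd_pow h) (hpr p hpp h5)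
    · exact Int.natCast_dvd.mp h
  refine dvd_trans ?_ (Finset.prod_dvd_prod_of_subset _ _ _ hsub)
  refine Finset.prod_dvd_prod_of_dvd _ _ fun p hp => ?_
  rw [mem_filter] at hp
  obtain ⟨hp1, h5⟩ := hp
  have hpp := Nat.prime_of_mem_primeFactors hp1
  have hpZ : Prime (p : ℤ) := Nat.prime_iff_prime_int.mp hpp
  by_cases ha : (p : ℤ) ∣ a
  · have hc : (p : ℤ) ∣ W.c₄ := by
      have h1 : (p : ℤ) ∣ (r : ℤ) ^ 4 * W.c₄ := by
        rw [← e4]
        exact (ha.mul_left 48).mul_right _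
      rcases hpZ.dvd_or_dvd h1 with h | h
      · exact absurd (by exact_mod_cast hpZ.dvd_of_dvd_pow h) (hpr p hpp h5)
      · exact h
    rw [if_pos ha, if_pos hc]
  · rw [if_neg ha]
    split_ifs
    · exact Dvd.intro_left (p ^ 1) (by ring)
    · exact dvd_rfl


end Pool.Agent.Q130.SZ
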