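import Pool.Agent.Q130.SZ.Core
import Pool.Agent.Q130.SZ.Model
import Pool.Agent.H925R.Szpiro.SemiCount
import Pool.Agent.Y913.Sm.AbcP

/-!
Curves with full rational 2-torsion whose `j`-invariant has few exponents in its denominator.
-/

set_option autoImplicit false

namespace Pool.Agent.Q130.SZ

open Finset Pool.Agent.H925R.Szpiro

lemma fact_of_cross {a b N M p : ℕ} (hp : p.Prime) (ha : a ≠ 0) (hb : b ≠ 0) (hN : N ≠ 0)
    (hM : M ≠ 0) (hcop : Nat.Coprime a b) (h : a * M = N * b) (hNM : p ∣ M → ¬ p ∣ N) :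
    b.factorization p = M.factorization p := by
  have h1 : (a * M).factorization p = (N * b).factorization p := by rw [h]
  rw [Nat.factorization_mul ha hM, Nat.factorization_mul hN hb, Finsupp.add_apply,
    Finsupp.add_apply] at h1
  have hab : a.factorization p = 0 ∨ b.factorization p = 0 := by
    by_contra hcon
    rw [not_or] at hcon
    have h2 : p ∣ a := Nat.dvd_of_factorization_pos hcon.1
    have h3 : p ∣ b := Nat.dvd_of_factorization_pos hcon.2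
    have := Nat.dvd_gcd h2 h3
    rw [hcop] at this
    exact hp.one_lt.ne' (Nat.dvd_one.mp this)
  by_cases hpM : p ∣ M
  · have hN0 : N.factorization p = 0 := Nat.factorization_eq_zero_of_not_dvd (hNM hpM)
    have hM1 : 0 < M.factorization p := hp.factorization_pos_of_dvd hM hpM
    omega
  · have hM0 : M.factorization p = 0 := Nat.factorization_eq_zero_of_not_dvd hpM
    omega

lemma card_expo_le {b m : ℕ} (hb : b ≠ 0) (T : Finset ℕ)
    (h : ∀ p : ℕ, p.Prime → 5 ≤ p → b.factorization p = 2 * m.factorization p)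
    (hT : expo b ⊆ T) : (expo m).card ≤ T.card := by
  classical
  have hinj : Function.Injective (fun x : ℕ => 2 * x) := fun x y hxy => by
    simpa using hxy
  rw [← card_image_of_injective (expo m) hinj]
  refine card_le_card (fun e he => hT ?_)
  rw [mem_image] at he
  obtain ⟨f, hf, rfl⟩ := he
  unfold expo at hf ⊢
  rw [mem_image] at hf ⊢
  obtain ⟨p, hp, rfl⟩ := hf
  rw [mem_filter] at hp
  have hpp := Nat.prime_of_mem_primeFactors hp.1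
  refine ⟨p, ?_, h p hpp hp.2⟩
  rw [mem_filter]
  refine ⟨?_, hp.2⟩
  rw [Nat.mem_primeFactors] at hp ⊢
  refine ⟨hpp, ?_, hb⟩
  apply Nat.dvd_of_factorization_pos
  rw [h p hpp hp.2]
  have := hpp.factorization_pos_of_dvd hp.1.2.2 hp.1.2.1
  omega

/-- the `j`-invariant of `y² = x (x - u) (x + v)` -/
def jq (q : ℕ × ℕ) : ℚ :=
  256 * ((q.1 : ℚ) ^ 2 + q.1 * q.2 + (q.2 : ℚ) ^ 2) ^ 3 / ((q.1 : ℚ) * q.2 * (q.1 + q.2)) ^ 2

lemma coprime_form {u v p : ℕ} (hp : p.Prime) (h : Nat.Coprime u v)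
    (hd : p ∣ u * v * (u + v)) : ¬ p ∣ u ^ 2 + u * v + v ^ 2 := by
  intro hq
  have key : p ∣ u ∧ p ∣ v → False := by
    rintro ⟨h1, h2⟩
    have := Nat.dvd_gcd h1 h2
    rw [h] at this
    exact hp.one_lt.ne' (Nat.dvd_one.mp this)
  rcases (Nat.Prime.dvd_mul hp).mp hd with h1 | h1
  · rcases (Nat.Prime.dvd_mul hp).mp h1 with h2 | h2
    · have h3 : p ∣ v ^ 2 := by
        have h4 : p ∣ u ^ 2 + u * v := dvd_add (Dvd.dvd.pow h2 (by norm_num)) (h2.mul_right v)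
        exact (Nat.dvd_add_right h4).mp hq
      exact key ⟨h2, hp.dvd_of_dvd_pow h3⟩
    · have h3 : p ∣ u ^ 2 := by
        have h4 : p ∣ u * v + v ^ 2 := dvd_add (h2.mul_left u) (Dvd.dvd.pow h2 (by norm_num))
        rw [add_assoc] at hq
        exact (Nat.dvd_add_left h4).mp hq
      exact key ⟨hp.dvd_of_dvd_pow h3, h2⟩
  · have h3 : p ∣ u * v := by
      have h4 : p ∣ (u + v) ^ 2 := Dvd.dvd.pow h1 (by norm_num)
      have h5 : (u + v) ^ 2 = (u ^ 2 + u * v + v ^ 2) + u * v := by ring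
      rw [h5] at h4
      exact (Nat.dvd_add_right hq).mp h4
    rcases (Nat.Prime.dvd_mul hp).mp h3 with h2 | h2
    · exact key ⟨h2, (Nat.dvd_add_right h2).mp h1⟩
    · exact key ⟨(Nat.dvd_add_left h2).mp h1, h2⟩

lemma jq_den {u v p : ℕ} (hu : 0 < u) (hv : 0 < v) (hc : Nat.Coprime u v) (hp : p.Prime)
    (h5 : 5 ≤ p) : (jq (u, v)).den.factorization p = 2 * (u * v * (u + v)).factorization p := by
  set x := jq (u, v) with hx
  set N : ℕ := 256 * (u ^ 2 + u * v + v ^ 2) ^ 3 with hN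
  set M : ℕ := (u * v * (u + v)) ^ 2 with hM
  have hN0 : 0 < N := by positivity
  have hM0 : 0 < M := by positivity
  have hxe : x = (N : ℚ) / (M : ℚ) := by
    rw [hx, hN, hM]
    unfold jq
    push_cast
    rfl
  have hx0 : 0 < x := by rw [hxe]; positivity
  have hnum : 0 < x.num := Rat.num_pos.mpr hx0
  have hden := x.den_pos
  have hcross : x.num.natAbs * M = N * x.den := by
    have h1 : (x.num : ℚ) / (x.den : ℚ) = (N : ℚ) / (M : ℚ) := by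
      rw [Rat.num_div_den]; exact hxe
    rw [div_eq_div_iff (by positivity) (by positivity)] at h1
    have h2 : (x.num : ℤ) * M = N * x.den := by exact_mod_cast h1
    have h3 : ((x.num.natAbs : ℕ) : ℤ) = x.num := Int.natAbs_of_nonneg hnum.le
    rw [← h3] at h2
    exact_mod_cast h2
  have h1 := fact_of_cross (p := p) hp (by omega) hden.ne' hN0.ne' hM0.ne' x.reduced hcross (by
    intro hpM hpN
    have h2 : p ∣ u * v * (u + v) := hp.dvd_of_dvd_pow hpM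
    have h3 := coprime_form hp hc h2
    rcases (Nat.Prime.dvd_mul hp).mp hpN with h4 | h4
    · have h6 : p ∣ 2 ^ 8 := by
        have : (256 : ℕ) = 2 ^ 8 := by norm_num
        rw [← this]; exact h4
      have h7 := Nat.le_of_dvd (by norm_num) (hp.dvd_of_dvd_pow h6)
      omega
    · exact h3 (hp.dvd_of_dvd_pow h4))
  rw [h1, hM, Nat.factorization_pow]
  simp

/-- structure of a short minimal model with full 2-torsion -/
lemma pair_of_short (a b : ℤ) (hmin : IsMin a b) (hf : FullS a b) :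
    ∃ u v : ℕ, 0 < u ∧ 0 < v ∧ Nat.Coprime u v ∧ 6912 * (a : ℚ) ^ 3 / (D a b : ℤ) = jq (u, v) ∧
      rad (u * v * (u + v)) ≤ 6 * condS a b ∧ 1 ≤ condS a b ∧ 0 < D a b ∧ 0 < a ∧
      27 * (a : ℝ) ^ 3 ≤ (108 * (condS a b : ℝ)) ^ 6 * ((u + v : ℕ) : ℝ) ^ 6 := by
  obtain ⟨i, j, g₁, g₂, u, v, hi, hj, hg1, hg2, hu, hv, hc, -, ha, hD, hrad⟩ :=
    twist_pair a b hmin hf
  have hr0 : 0 < rad (u * v * (u + v)) := rad_pos _
  have hrad' : rad (u * v * (u + v)) * (g₁ * g₂) * g₂ ≤ 6 * condS a b := hrad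
  have hg12 : 0 < g₁ * g₂ := by positivity
  set G : ℕ := 2 ^ i * 3 ^ j * (g₁ * g₂) with hG
  have hG0 : 0 < G := by positivity
  have hGle : G ≤ 108 * condS a b := by
    have h1 : 2 ^ i ≤ 2 ^ 1 := Nat.pow_le_pow_right (by norm_num) hi
    have h2 : 3 ^ j ≤ 3 ^ 2 := Nat.pow_le_pow_right (by norm_num) hj
    have h3 : g₁ * g₂ ≤ 6 * condS a b := by
      refine le_trans ?_ hrad'
      calc g₁ * g₂ = 1 * (g₁ * g₂) * 1 := by ring
        _ ≤ rad (u * v * (u + v)) * (g₁ * g₂) * g₂ := by gcongr <;> omega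
    calc G ≤ 2 ^ 1 * 3 ^ 2 * (6 * condS a b) := by
          rw [hG]; gcongr
      _ = _ := by ring
  have hm0 : 0 < u * v * (u + v) := by positivity
  have hDpos : 0 < D a b := by
    rw [hD]
    have h1 : (0 : ℤ) < (G : ℤ) := by exact_mod_cast hG0
    have h2 : (0 : ℤ) < (u : ℤ) * v * (u + v) := by exact_mod_cast hm0
    positivity
  have hQ0 : (0 : ℤ) < (u : ℤ) ^ 2 + u * v + (v : ℤ) ^ 2 := by
    have h2 : (0 : ℤ) < (u : ℤ) := by exact_mod_cast hu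
    positivity
  have ha0 : 0 < a := by
    have h1 : (0 : ℤ) < (G : ℤ) := by exact_mod_cast hG0
    have h2 : 0 < 3 * a := by rw [ha]; positivity
    omega
  refine ⟨u, v, hu, hv, hc, ?_, ?_, ?_, hDpos, ha0, ?_⟩
  · have haq : 3 * (a : ℚ) = (G : ℚ) ^ 2 * ((u : ℚ) ^ 2 + u * v + (v : ℚ) ^ 2) := by
      exact_mod_cast ha
    have hDq : ((D a b : ℤ) : ℚ) = (G : ℚ) ^ 6 * ((u : ℚ) * v * (u + v)) ^ 2 := by
      rw [hD]; push_cast; ring
    have hGq : (G : ℚ) ≠ 0 := by exact_mod_cast hG0.ne'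
    have hmq : (u : ℚ) * v * (u + v) ≠ 0 := by exact_mod_cast hm0.ne'
    have h3 : 6912 * (a : ℚ) ^ 3 = 256 * (3 * (a : ℚ)) ^ 3 := by ring
    rw [h3, haq, hDq]
    unfold jq
    simp only
    rw [div_eq_div_iff (by positivity) (by positivity)]
    ring
  · refine le_trans ?_ hrad'
    calc rad (u * v * (u + v)) = rad (u * v * (u + v)) * 1 * 1 := by ring
      _ ≤ rad (u * v * (u + v)) * (g₁ * g₂) * g₂ := by gcongr <;> omega
  · have h1 : 1 ≤ rad (u * v * (u + v)) * (g₁ * g₂) * g₂ :=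
      Nat.one_le_iff_ne_zero.mpr (by positivity)
    omega
  · have haR : 3 * (a : ℝ) = (G : ℝ) ^ 2 * ((u : ℝ) ^ 2 + u * v + (v : ℝ) ^ 2) := by
      exact_mod_cast ha
    have hGR : (G : ℝ) ≤ 108 * (condS a b : ℝ) := by exact_mod_cast hGle
    have hQ : (u : ℝ) ^ 2 + u * v + (v : ℝ) ^ 2 ≤ ((u + v : ℕ) : ℝ) ^ 2 := by
      push_cast
      have : (0 : ℝ) ≤ (u : ℝ) * v := by positivity
      nlinarith
    have hQ' : (0 : ℝ) ≤ (u : ℝ) ^ 2 + u * v + (v : ℝ) ^ 2 := by positivity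
    calc 27 * (a : ℝ) ^ 3 = (3 * (a : ℝ)) ^ 3 := by ring
      _ = ((G : ℝ) ^ 2 * ((u : ℝ) ^ 2 + u * v + (v : ℝ) ^ 2)) ^ 3 := by rw [haR]
      _ ≤ ((108 * (condS a b : ℝ)) ^ 2 * ((u + v : ℕ) : ℝ) ^ 2) ^ 3 := by gcongr
      _ = _ := by ring

/-- the set of pairs counted -/
def PS (n : ℕ) (B κ N : ℝ) : Set (ℕ × ℕ) :=
  {q | Pr n q ∧ ∃ M : ℝ, 1 ≤ M ∧ M ≤ N ∧ (rad (q.1 * q.2 * (q.1 + q.2)) : ℝ) ≤ 6 * M ∧
    M ^ κ ≤ (B * M * ((q.1 + q.2 : ℕ) : ℝ)) ^ 6}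

theorem ps_count (n : ℕ) (ε B : ℝ) (hε : 0 < ε) (hB : 0 < B) : ∃ κ C : ℝ, 0 < κ ∧ 0 < C ∧
    ∀ N : ℝ, 1 ≤ N → (PS n B κ N).Finite ∧ ((PS n B κ N).ncard : ℝ) ≤ C * N ^ ε := by
  obtain ⟨K, C, hK, hC, h⟩ := core n ε 6 B⁻¹ hε (by norm_num) (by positivity)
  refine ⟨6 * K + 6, C, by positivity, hC, fun N hN => ?_⟩
  refine Pool.Agent.Y913.Sm.finite_of_bound (fun Q hQ => h N hN Q (fun q hq => ?_))
  obtain ⟨h1, M, h2, h3, h4, h5⟩ := hQ q hq
  refine ⟨h1, M, h2, h3, h4, ?_⟩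
  have hM0 : 0 < M := by linarith
  have h6 : (M ^ K * M) ^ 6 ≤ (B * M * ((q.1 + q.2 : ℕ) : ℝ)) ^ 6 := by
    refine le_trans (le_of_eq ?_) h5
    rw [Real.rpow_add hM0, mul_comm 6 K, Real.rpow_mul hM0.le, mul_pow]
    norm_num
  have h7 : M ^ K * M ≤ B * M * ((q.1 + q.2 : ℕ) : ℝ) :=
    le_of_pow_le_pow_left₀ (by norm_num) (by positivity) h6
  have h8 : M ^ K ≤ B * ((q.1 + q.2 : ℕ) : ℝ) := by
    have : M ^ K * M ≤ (B * ((q.1 + q.2 : ℕ) : ℝ)) * M := by linarith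
    exact le_of_mul_le_mul_right this hM0
  rw [inv_mul_eq_div, div_le_iff₀ hB]
  linarith

/-- short models -/
theorem short_count (n : ℕ) (ε : ℝ) (hε : 0 < ε) : ∃ κ C : ℝ, 0 < κ ∧ 0 < C ∧
    ∀ N : ℝ, 1 ≤ N →
    {j : ℚ | ∃ a b : ℤ, IsMin a b ∧ FullS a b ∧ j = 6912 * (a : ℚ) ^ 3 / (D a b : ℤ) ∧
      (expo j.den).card ≤ n ∧ (condS a b : ℝ) ≤ N ∧
      (condS a b : ℝ) ^ κ < |((D a b : ℤ) : ℝ)|}.Finite ∧
    ({j : ℚ | ∃ a b : ℤ, IsMin a b ∧ FullS a b ∧ j = 6912 * (a : ℚ) ^ 3 / (D a b : ℤ) ∧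
      (expo j.den).card ≤ n ∧ (condS a b : ℝ) ≤ N ∧
      (condS a b : ℝ) ^ κ < |((D a b : ℤ) : ℝ)|}.ncard : ℝ) ≤ C * N ^ ε := by
  obtain ⟨κ, C, hκ, hC, h⟩ := ps_count n ε 108 hε (by norm_num)
  refine ⟨κ, C, hκ, hC, fun N hN => ?_⟩
  obtain ⟨h1, h2⟩ := h N hN
  have hsub : {j : ℚ | ∃ a b : ℤ, IsMin a b ∧ FullS a b ∧ j = 6912 * (a : ℚ) ^ 3 / (D a b : ℤ) ∧
      (expo j.den).card ≤ n ∧ (condS a b : ℝ) ≤ N ∧
      (condS a b : ℝ) ^ κ < |((D a b : ℤ) : ℝ)|} ⊆ jq '' PS n 108 κ N := by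
    rintro j ⟨a, b, hmin, hf, hj, he, hN', hbig⟩
    obtain ⟨u, v, hu, hv, hc, hj', hrad, hM1, hD0, ha0, hsize⟩ := pair_of_short a b hmin hf
    refine ⟨(u, v), ⟨⟨hu, hv, hc, ?_⟩, (condS a b : ℝ), by exact_mod_cast hM1, hN',
      by exact_mod_cast hrad, ?_⟩, ?_⟩
    · refine le_trans (card_expo_le j.den_pos.ne' _ (fun p hp h5 => ?_) (Finset.Subset.refl _)) he
      rw [hj, hj']
      exact jq_den hu hv hc hp h5
    · refine hbig.le.trans ?_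
      have h3 : |((D a b : ℤ) : ℝ)| ≤ 4 * (a : ℝ) ^ 3 := by
        rw [abs_of_pos (by exact_mod_cast hD0)]
        unfold D
        push_cast
        nlinarith [sq_nonneg (b : ℝ)]
      have ha3 : 0 ≤ (a : ℝ) ^ 3 := by
        have : (0 : ℝ) ≤ (a : ℝ) := by exact_mod_cast ha0.le
        positivity
      calc |((D a b : ℤ) : ℝ)| ≤ 27 * (a : ℝ) ^ 3 := by linarith
        _ ≤ _ := hsize
        _ = _ := by ring
    · rw [hj, hj']
  refine ⟨(h1.image jq).subset hsub, ?_⟩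
  refine le_trans ?_ h2
  exact_mod_cast (Set.ncard_le_ncard hsub (h1.image jq)).trans (Set.ncard_image_le h1)

/-- global minimal equations, the modified height -/
theorem global_count (n : ℕ) (ε : ℝ) (hε : 0 < ε) : ∃ κ C : ℝ, 0 < κ ∧ 0 < C ∧
    ∀ N : ℝ, 1 ≤ N →
    {j : ℚ | ∃ W : WeierstrassCurve ℤ, GMin W ∧ FullT W ∧ j = (W.c₄ : ℚ) ^ 3 / W.Δ ∧
      (expo j.den).card ≤ n ∧ (condW W : ℝ) ≤ N ∧
      (condW W : ℝ) ^ κ < max (|(W.c₄ : ℝ)| ^ 3) ((W.c₆ : ℝ) ^ 2)}.Finite ∧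
    ({j : ℚ | ∃ W : WeierstrassCurve ℤ, GMin W ∧ FullT W ∧ j = (W.c₄ : ℚ) ^ 3 / W.Δ ∧
      (expo j.den).card ≤ n ∧ (condW W : ℝ) ≤ N ∧
      (condW W : ℝ) ^ κ < max (|(W.c₄ : ℝ)| ^ 3) ((W.c₆ : ℝ) ^ 2)}.ncard : ℝ) ≤ C * N ^ ε := by
  obtain ⟨κ, C, hκ, hC, h⟩ := ps_count n ε 648 hε (by norm_num)
  refine ⟨κ, C, hκ, hC, fun N hN => ?_⟩
  obtain ⟨h1, h2⟩ := h N hN
  have hsub : {j : ℚ | ∃ W : WeierstrassCurve ℤ, GMin W ∧ FullT W ∧ j = (W.c₄ : ℚ) ^ 3 / W.Δ ∧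
      (expo j.den).card ≤ n ∧ (condW W : ℝ) ≤ N ∧
      (condW W : ℝ) ^ κ < max (|(W.c₄ : ℝ)| ^ 3) ((W.c₆ : ℝ) ^ 2)} ⊆ jq '' PS n 648 κ N := by
    rintro j ⟨W, hW, hF, hj, he, hN', hbig⟩
    obtain ⟨a, b, r, s, hmin, hf, hs0, hsr, hr6, e4, e6, e12, hrs6⟩ := ints W hW hF
    obtain ⟨u, v, hu, hv, hc, hj', hrad, hM1, hD0, ha0, hsize⟩ := pair_of_short a b hmin hf
    have hr0 : 0 < r := by omega
    have hcl : condS a b ≤ condW W := cond_le W a b r s hr6 e4 e12 hW.1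
    have hclR : (condS a b : ℝ) ≤ (condW W : ℝ) := by exact_mod_cast hcl
    have hjj : j = jq (u, v) := by
      rw [← hj', hj]
      have q4 : 48 * (a : ℚ) * (s : ℚ) ^ 4 = (r : ℚ) ^ 4 * (W.c₄ : ℚ) := by exact_mod_cast e4
      have q12 : (16 * ((D a b : ℤ) : ℚ)) * (s : ℚ) ^ 12 = (r : ℚ) ^ 12 * (W.Δ : ℚ) := by
        exact_mod_cast e12
      have hDq : ((D a b : ℤ) : ℚ) ≠ 0 := by exact_mod_cast hD0.ne'
      have hΔq : (W.Δ : ℚ) ≠ 0 := by exact_mod_cast hW.1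
      have hrq : (r : ℚ) ≠ 0 := by exact_mod_cast hr0.ne'
      have hsq : (s : ℚ) ≠ 0 := by exact_mod_cast hs0.ne'
      have hr12 : (r : ℚ) ^ 12 ≠ 0 := pow_ne_zero _ hrq
      rw [div_eq_div_iff hΔq hDq]
      have h3 : (r : ℚ) ^ 12 * (W.c₄ : ℚ) ^ 3 = (48 * (a : ℚ) * (s : ℚ) ^ 4) ^ 3 := by
        rw [q4]; ring
      apply mul_left_cancel₀ hr12
      calc (r : ℚ) ^ 12 * ((W.c₄ : ℚ) ^ 3 * (D a b : ℤ))
          = (48 * (a : ℚ) * (s : ℚ) ^ 4) ^ 3 * (D a b : ℤ) := by rw [← h3]; ring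
        _ = 6912 * (a : ℚ) ^ 3 * ((16 * ((D a b : ℤ) : ℚ)) * (s : ℚ) ^ 12) := by ring
        _ = 6912 * (a : ℚ) ^ 3 * ((r : ℚ) ^ 12 * (W.Δ : ℚ)) := by rw [q12]
        _ = _ := by ring
    refine ⟨(u, v), ⟨⟨hu, hv, hc, ?_⟩, (condW W : ℝ), by exact_mod_cast hM1.trans hcl, hN',
      ?_, ?_⟩, hjj.symm⟩
    · refine le_trans (card_expo_le j.den_pos.ne' _ (fun p hp h5 => ?_) (Finset.Subset.refl _)) he
      rw [hjj]
      exact jq_den hu hv hc hp h5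
    · have : (rad (u * v * (u + v)) : ℝ) ≤ 6 * (condS a b : ℝ) := by exact_mod_cast hrad
      show (rad (u * v * (u + v)) : ℝ) ≤ 6 * (condW W : ℝ)
      linarith
    · refine hbig.le.trans ?_
      show max (|(W.c₄ : ℝ)| ^ 3) ((W.c₆ : ℝ) ^ 2) ≤
        (648 * (condW W : ℝ) * ((u + v : ℕ) : ℝ)) ^ 6
      have haR : (0 : ℝ) < (a : ℝ) := by exact_mod_cast ha0
      have ha3 : 0 ≤ (a : ℝ) ^ 3 := by positivity
      have hb2 : 27 * (b : ℝ) ^ 2 ≤ 4 * (a : ℝ) ^ 3 := by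
        have h3 : (0 : ℝ) < ((D a b : ℤ) : ℝ) := by exact_mod_cast hD0
        unfold D at h3
        push_cast at h3
        linarith
      have hrR : (0 : ℝ) < r := by exact_mod_cast hr0
      have hsR : (0 : ℝ) ≤ s := Nat.cast_nonneg _
      have hsrR : (s : ℝ) ≤ r := by exact_mod_cast hsr
      have f4 : |(W.c₄ : ℝ)| ≤ 48 * (a : ℝ) := by
        have e : 48 * (a : ℝ) * (s : ℝ) ^ 4 = (r : ℝ) ^ 4 * (W.c₄ : ℝ) := by exact_mod_cast e4
        have h2 := congrArg abs e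
        rw [abs_mul, abs_mul, abs_mul, abs_of_pos (by norm_num : (0 : ℝ) < 48),
          abs_of_nonneg (by positivity : (0 : ℝ) ≤ (s : ℝ) ^ 4), abs_of_pos haR,
          abs_of_nonneg (by positivity : (0 : ℝ) ≤ (r : ℝ) ^ 4)] at h2
        have h3 : (s : ℝ) ^ 4 ≤ (r : ℝ) ^ 4 := pow_le_pow_left₀ hsR hsrR 4
        have h5 : (r : ℝ) ^ 4 * |(W.c₄ : ℝ)| ≤ (r : ℝ) ^ 4 * (48 * (a : ℝ)) := by
          rw [← h2]
          calc 48 * (a : ℝ) * (s : ℝ) ^ 4 ≤ 48 * (a : ℝ) * (r : ℝ) ^ 4 :=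
                mul_le_mul_of_nonneg_left h3 (by positivity)
            _ = _ := by ring
        exact le_of_mul_le_mul_left h5 (by positivity)
      have f6 : |(W.c₆ : ℝ)| ≤ 864 * |(b : ℝ)| := by
        have e : 864 * (b : ℝ) * (s : ℝ) ^ 6 = (r : ℝ) ^ 6 * (W.c₆ : ℝ) := by exact_mod_cast e6
        have h2 := congrArg abs e
        rw [abs_mul, abs_mul, abs_mul, abs_of_pos (by norm_num : (0 : ℝ) < 864),
          abs_of_nonneg (by positivity : (0 : ℝ) ≤ (s : ℝ) ^ 6),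
          abs_of_nonneg (by positivity : (0 : ℝ) ≤ (r : ℝ) ^ 6)] at h2
        have h3 : (s : ℝ) ^ 6 ≤ (r : ℝ) ^ 6 := pow_le_pow_left₀ hsR hsrR 6
        have h5 : (r : ℝ) ^ 6 * |(W.c₆ : ℝ)| ≤ (r : ℝ) ^ 6 * (864 * |(b : ℝ)|) := by
          rw [← h2]
          calc 864 * |(b : ℝ)| * (s : ℝ) ^ 6 ≤ 864 * |(b : ℝ)| * (r : ℝ) ^ 6 :=
                mul_le_mul_of_nonneg_left h3 (by positivity)
            _ = _ := by ring
        exact le_of_mul_le_mul_left h5 (by positivity)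
      have g : max (|(W.c₄ : ℝ)| ^ 3) ((W.c₆ : ℝ) ^ 2) ≤ 46656 * (27 * (a : ℝ) ^ 3) := by
        refine max_le ?_ ?_
        · calc |(W.c₄ : ℝ)| ^ 3 ≤ (48 * (a : ℝ)) ^ 3 := pow_le_pow_left₀ (abs_nonneg _) f4 3
            _ = 110592 * (a : ℝ) ^ 3 := by ring
            _ ≤ _ := by linarith
        · calc (W.c₆ : ℝ) ^ 2 = |(W.c₆ : ℝ)| ^ 2 := (sq_abs _).symm
            _ ≤ (864 * |(b : ℝ)|) ^ 2 := pow_le_pow_left₀ (abs_nonneg _) f6 2
            _ = 746496 * (b : ℝ) ^ 2 := by rw [mul_pow, sq_abs]; norm_num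
            _ ≤ _ := by linarith
      calc max (|(W.c₄ : ℝ)| ^ 3) ((W.c₆ : ℝ) ^ 2) ≤ 46656 * (27 * (a : ℝ) ^ 3) := g
        _ ≤ 46656 * ((108 * (condS a b : ℝ)) ^ 6 * ((u + v : ℕ) : ℝ) ^ 6) := by
            linarith [hsize]
        _ ≤ 46656 * ((108 * (condW W : ℝ)) ^ 6 * ((u + v : ℕ) : ℝ) ^ 6) := by gcongr
        _ = _ := by ring
  refine ⟨(h1.image jq).subset hsub, ?_⟩
  refine le_trans ?_ h2
  exact_mod_cast (Set.ncard_le_ncard hsub (h1.image jq)).trans (Set.ncard_image_le h1)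

/-- the exponents in the factorization -/
def expoAll (m : ℕ) : Finset ℕ := m.primeFactors.image (fun p => m.factorization p)

lemma inv_eq (W : WeierstrassCurve ℤ) (g u v : ℕ) (E4 : W.c₄ = (g : ℤ) ^ 2 * (u ^ 2 + u * v + v ^ 2))
    (ED : 256 * W.Δ = (g : ℤ) ^ 6 * (u * v * (u + v)) ^ 2) (s : ℤ)
    (hs6 : W.c₆ = s * |W.c₆|) : inv ((g, s), (u, v)) = (W.c₄, W.c₆) := by
  unfold inv
  simp only
  refine Prod.ext E4.symm ?_
  simp only
  rw [← E4]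
  have hΔ' : ((g : ℤ) ^ 6 * ((u : ℤ) * v * (u + v)) ^ 2) / 256 = W.Δ := by
    rw [← ED]
    exact Int.mul_ediv_cancel_left _ (by norm_num)
  rw [hΔ']
  have hrel := W.c_relation
  have h7 : W.c₄ ^ 3 - 1728 * W.Δ = |W.c₆| ^ 2 := by rw [sq_abs]; linarith
  have h8 : (|W.c₆| ^ 2).toNat = (W.c₆.natAbs) ^ 2 := by
    rw [Int.abs_eq_natAbs, ← Nat.cast_pow, Int.toNat_natCast]
  rw [h7, h8, Nat.sqrt_eq', ← Int.abs_eq_natAbs]
  exact hs6.symm

/-- semistable curves -/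
theorem semi_count (n : ℕ) (ε : ℝ) (hε : 0 < ε) : ∃ κ C : ℝ, 0 < κ ∧ 0 < C ∧
    ∀ N : ℝ, 1 ≤ N →
    {q : ℤ × ℤ | ∃ W : WeierstrassCurve ℤ, W.Δ ≠ 0 ∧ IsCoprime W.c₄ W.Δ ∧ Full W ∧
      q = (W.c₄, W.c₆) ∧ (expoAll W.Δ.natAbs).card ≤ n ∧ (cond W : ℝ) ≤ N ∧
      (cond W : ℝ) ^ κ < |(W.Δ : ℝ)|}.Finite ∧
    ({q : ℤ × ℤ | ∃ W : WeierstrassCurve ℤ, W.Δ ≠ 0 ∧ IsCoprime W.c₄ W.Δ ∧ Full W ∧
      q = (W.c₄, W.c₆) ∧ (expoAll W.Δ.natAbs).card ≤ n ∧ (cond W : ℝ) ≤ N ∧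
      (cond W : ℝ) ^ κ < |(W.Δ : ℝ)|}.ncard : ℝ) ≤ C * N ^ ε := by
  classical
  obtain ⟨κ, C, hκ, hC, h⟩ := ps_count n ε 2 hε (by norm_num)
  refine ⟨κ, 4 * C, hκ, by positivity, fun N hN => ?_⟩
  obtain ⟨h1, h2⟩ := h N hN
  set A : Finset (ℕ × ℤ) := ({1, 2} : Finset ℕ) ×ˢ ({1, -1} : Finset ℤ) with hA
  have hAcard : A.card ≤ 4 := by
    rw [hA, card_product]
    have h1 : ({1, 2} : Finset ℕ).card ≤ 2 := card_le_two
    have h2 : ({1, -1} : Finset ℤ).card ≤ 2 := card_le_two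
    nlinarith
  set T : Finset (ℕ × ℕ) := h1.toFinset with hT
  have hsub : {q : ℤ × ℤ | ∃ W : WeierstrassCurve ℤ, W.Δ ≠ 0 ∧ IsCoprime W.c₄ W.Δ ∧ Full W ∧
      q = (W.c₄, W.c₆) ∧ (expoAll W.Δ.natAbs).card ≤ n ∧ (cond W : ℝ) ≤ N ∧
      (cond W : ℝ) ^ κ < |(W.Δ : ℝ)|} ⊆ (((A ×ˢ T).image inv : Finset (ℤ × ℤ)) : Set (ℤ × ℤ)) := by
    rintro q ⟨W, hΔ, hc, hf, rfl, he, hN', hbig⟩
    obtain ⟨g, u, v, hg, hu, hv, hcop, E4, ED⟩ := semi_pair W hΔ hc hf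
    rw [mem_coe, mem_image]
    obtain ⟨s, hs, hs6⟩ : ∃ s : ℤ, s ∈ ({1, -1} : Finset ℤ) ∧ W.c₆ = s * |W.c₆| := by
      rcases le_total 0 W.c₆ with h0 | h0
      · exact ⟨1, by simp, by rw [abs_of_nonneg h0]; ring⟩
      · exact ⟨-1, by simp, by rw [abs_of_nonpos h0]; ring⟩
    refine ⟨((g, s), (u, v)), ?_, inv_eq W g u v E4 ED s hs6⟩
    rw [mem_product]
    constructor
    · rw [hA, mem_product]
      refine ⟨?_, hs⟩
      rcases hg with rfl | rfl <;> simp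
    rw [hT, Set.Finite.mem_toFinset]
    set m : ℕ := u * v * (u + v) with hm
    have hm0 : 0 < m := by positivity
    have hD' : 256 * W.Δ = (g : ℤ) ^ 6 * (m : ℤ) ^ 2 := by
      rw [ED, hm]; push_cast; ring
    have hΔpos : 0 < W.Δ := by
      have h3 : (0 : ℤ) < 256 * W.Δ := by
        rw [hD']
        have : (0 : ℤ) < (g : ℤ) := by rcases hg with rfl | rfl <;> norm_num
        positivity
      omega
    have hDn : 256 * W.Δ.natAbs = g ^ 6 * m ^ 2 := by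
      have h3 : ((W.Δ.natAbs : ℕ) : ℤ) = W.Δ := Int.natAbs_of_nonneg hΔpos.le
      rw [← h3] at hD'
      exact_mod_cast hD'
    have hcond1 : 1 ≤ cond W := by
      unfold Pool.Agent.H925R.Szpiro.cond
      exact prod_pos (fun p hp => (Nat.prime_of_mem_primeFactors hp).pos)
    refine ⟨⟨hu, hv, hcop, ?_⟩, (cond W : ℝ), by exact_mod_cast hcond1, hN', ?_, ?_⟩
    · refine le_trans (card_expo_le (b := W.Δ.natAbs) (by omega) (expoAll W.Δ.natAbs)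
        (fun p hp h5 => ?_) ?_) he
      · have hg0 : g ≠ 0 := by rcases hg with rfl | rfl <;> norm_num
        have hpg : ¬ p ∣ g := by
          intro h
          have := Nat.le_of_dvd (by omega) h
          rcases hg with rfl | rfl <;> omega
        have hp256 : ¬ p ∣ 256 := by
          intro h
          have h6 : p ∣ 2 ^ 8 := by
            have : (256 : ℕ) = 2 ^ 8 := by norm_num
            rw [← this]; exact h
          have h7 := Nat.le_of_dvd (by norm_num) (hp.dvd_of_dvd_pow h6)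
          omega
        have h3 : (256 * W.Δ.natAbs).factorization p = (g ^ 6 * m ^ 2).factorization p := by
          rw [hDn]
        rw [Nat.factorization_mul (by norm_num) (by omega),
          Nat.factorization_mul (pow_ne_zero _ hg0) (by positivity), Nat.factorization_pow,
          Nat.factorization_pow] at h3
        simp only [Finsupp.add_apply, Finsupp.smul_apply, smul_eq_mul] at h3
        rw [Nat.factorization_eq_zero_of_not_dvd hp256,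
          Nat.factorization_eq_zero_of_not_dvd hpg] at h3
        simpa using h3
      · unfold expo expoAll
        exact image_subset_image (filter_subset _ _)
    · have h3 := rad_le_two_cond W hΔ g m hD'
      have h4 : (rad m : ℝ) ≤ 2 * (cond W : ℝ) := by exact_mod_cast h3
      have h5 : (0 : ℝ) ≤ (cond W : ℝ) := Nat.cast_nonneg _
      show (rad m : ℝ) ≤ 6 * (cond W : ℝ)
      linarith
    · refine hbig.le.trans ?_
      show |(W.Δ : ℝ)| ≤ (2 * (cond W : ℝ) * ((u + v : ℕ) : ℝ)) ^ 6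
      have hcondR : (1 : ℝ) ≤ (cond W : ℝ) := by exact_mod_cast hcond1
      have hΔR : (0 : ℝ) < (W.Δ : ℝ) := by exact_mod_cast hΔpos
      have hDR : 256 * (W.Δ : ℝ) = (g : ℝ) ^ 6 * (m : ℝ) ^ 2 := by exact_mod_cast hD'
      have hgR : (g : ℝ) ≤ 2 := by rcases hg with rfl | rfl <;> norm_num
      set c : ℝ := ((u + v : ℕ) : ℝ) with hcdef
      have hc0 : 0 ≤ c := Nat.cast_nonneg _
      have hnle : (m : ℝ) ≤ c ^ 3 := by
        have : m ≤ (u + v) ^ 3 := by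
          rw [hm]
          calc u * v * (u + v) ≤ (u + v) * (u + v) * (u + v) := by gcongr <;> omega
            _ = _ := by ring
        rw [hcdef]
        exact_mod_cast this
      rw [abs_of_pos hΔR]
      have h3 : 256 * (W.Δ : ℝ) ≤ 2 ^ 6 * (c ^ 3) ^ 2 := by
        rw [hDR]; gcongr
      have h4 : (W.Δ : ℝ) ≤ c ^ 6 := by nlinarith [pow_nonneg hc0 6]
      have h5 : (1 : ℝ) ≤ 2 * (cond W : ℝ) := by linarith
      calc (W.Δ : ℝ) ≤ c ^ 6 := h4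
        _ = (1 * c) ^ 6 := by ring
        _ ≤ (2 * (cond W : ℝ) * c) ^ 6 := by gcongr
  refine ⟨Set.Finite.subset (Finset.finite_toSet _) hsub, ?_⟩
  have h3 := Set.ncard_le_ncard hsub (Finset.finite_toSet _)
  rw [Set.ncard_coe_finset] at h3
  have h4 : ((A ×ˢ T).image inv).card ≤ 4 * T.card :=
    card_image_le.trans (by rw [card_product]; exact Nat.mul_le_mul_right _ hAcard)
  have h5 : T.card = (PS n 2 κ N).ncard := by
    rw [hT, ← Set.ncard_eq_toFinset_card _ h1]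
  have h6 := h3.trans h4
  rw [h5] at h6
  calc _ ≤ ((4 * (PS n 2 κ N).ncard : ℕ) : ℝ) := by exact_mod_cast h6
    _ ≤ 4 * (C * N ^ ε) := by push_cast; linarith
    _ = _ := by ring

end Pool.Agent.Q130.SZ
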