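import Pool.Agent.Y913.Zm.Fn
import Pool.Agent.Y913.Sm.AbcP

/-!
Points of the projective line over `ℚ` for which three linear forms have few exponents.
-/

set_option autoImplicit false

namespace Pool.Agent.Q130.SZ

open Finset Pool.Agent.Y913.Nb Pool.Agent.Y913.Zm

/-- coprime pairs with power products at level `Y` -/
def NP (n : ℕ) (Y : ℝ) (q : ℕ × ℕ) : Prop :=
  0 < q.1 ∧ 0 < q.2 ∧ Nat.Coprime q.1 q.2 ∧ NB n Y q.1 ∧ NB n Y q.2 ∧ NB n Y (q.1 + q.2)

lemma NP.mono {n : ℕ} {Y Y' : ℝ} {q : ℕ × ℕ} (h : NP n Y q) (hY : Y ≤ Y') : NP n Y' q :=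
  ⟨h.1, h.2.1, h.2.2.1, h.2.2.2.1.mono_Y hY, h.2.2.2.2.1.mono_Y hY, h.2.2.2.2.2.mono_Y hY⟩

theorem np_total (n : ℕ) : ∃ L C : ℝ, 1 ≤ L ∧ 0 < C ∧
    ∀ Y : ℝ, 1 ≤ Y → ∀ Q : Finset (ℕ × ℕ), (∀ q ∈ Q, NP n Y q) → (Q.card : ℝ) ≤ C * Y ^ L := by
  classical
  obtain ⟨K, C, hK, hC, h⟩ := nt_count n 1 one_pos
  refine ⟨2 * K + 1, C + 4, by linarith, by linarith, fun Y hY1 Q hQ => ?_⟩
  have hY0 : 0 < Y := by linarith
  set Q1 := Q.filter (fun q => Y ^ K ≤ ((q.1 + q.2 : ℕ) : ℝ)) with hQ1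
  set Q2 := Q.filter (fun q => ¬ Y ^ K ≤ ((q.1 + q.2 : ℕ) : ℝ)) with hQ2
  have hsplit : Q.card = Q1.card + Q2.card := (card_filter_add_card_filter_not _).symm
  have h1 : (Q1.card : ℝ) ≤ C * Y ^ (1 : ℝ) := by
    refine h Y hY1 Q1 (fun q hq => ?_)
    rw [hQ1, mem_filter] at hq
    obtain ⟨g1, g2, g3, g4, g5, g6⟩ := hQ q hq.1
    exact ⟨g1, g2, g3, g4, g5, g6, hq.2⟩
  have hYK1 : 1 ≤ Y ^ K := Real.one_le_rpow hY1 hK.le
  have h2 : (Q2.card : ℝ) ≤ (Y ^ K + 1) ^ 2 := by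
    have hsub : Q2 ⊆ range (⌊Y ^ K⌋₊ + 1) ×ˢ range (⌊Y ^ K⌋₊ + 1) := by
      intro q hq
      rw [hQ2, mem_filter] at hq
      have h3 := not_le.mp hq.2
      have h4 : q.1 + q.2 ≤ ⌊Y ^ K⌋₊ := Nat.le_floor h3.le
      rw [mem_product, mem_range, mem_range]
      omega
    have h3 := card_le_card hsub
    rw [card_product, card_range] at h3
    have h4 : ((⌊Y ^ K⌋₊ + 1 : ℕ) : ℝ) ≤ Y ^ K + 1 := by
      push_cast
      have := Nat.floor_le (by positivity : 0 ≤ Y ^ K)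
      linarith
    calc (Q2.card : ℝ) ≤ ((⌊Y ^ K⌋₊ + 1 : ℕ) : ℝ) * ((⌊Y ^ K⌋₊ + 1 : ℕ) : ℝ) := by
          exact_mod_cast h3
      _ ≤ (Y ^ K + 1) * (Y ^ K + 1) := by gcongr
      _ = _ := by ring
  have h3 : (Y ^ K + 1) ^ 2 ≤ 4 * Y ^ (2 * K + 1) := by
    have h4 : Y ^ (2 * K + 1) = (Y ^ K) ^ 2 * Y := by
      rw [Real.rpow_add hY0, Real.rpow_one, mul_comm 2 K, Real.rpow_mul hY0.le]
      norm_num
    rw [h4]
    have h5 : (Y ^ K + 1) ^ 2 ≤ 4 * (Y ^ K) ^ 2 := by nlinarith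
    have h6 : (Y ^ K) ^ 2 ≤ (Y ^ K) ^ 2 * Y := le_mul_of_one_le_right (by positivity) hY1
    linarith
  have h4 : Y ^ (1 : ℝ) ≤ Y ^ (2 * K + 1) :=
    Real.rpow_le_rpow_of_exponent_le hY1 (by linarith)
  rw [hsplit]
  push_cast
  nlinarith [mul_le_mul_of_nonneg_left h4 hC.le]

theorem np_core (n : ℕ) (ε B c : ℝ) (R : ℕ) (hε : 0 < ε) (hB1 : 1 ≤ B) (hc : 0 < c)
    (hR : 1 ≤ R) : ∃ K C : ℝ, 0 < K ∧ 0 < C ∧
    ∀ X : ℝ, 1 ≤ X → ∀ Q : Finset (ℕ × ℕ), (∀ q ∈ Q, ∃ M : ℝ, 1 ≤ M ∧ M ≤ X ∧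
      NP n ((B * M) ^ R) q ∧ c * M ^ K ≤ ((q.1 + q.2 : ℕ) : ℝ)) →
      (Q.card : ℝ) ≤ C * X ^ ε := by
  classical
  have hR0 : (0 : ℝ) < R := by exact_mod_cast hR
  obtain ⟨K₀, C₀, hK₀, hC₀, h₀⟩ := nt_count n (ε / R) (by positivity)
  obtain ⟨L, C₁, hL, hC₁, h₁⟩ := np_total n
  have hB0 : 0 < B := by linarith
  have hL0 : 0 < L := by linarith
  set δ : ℝ := ε / (R * L) with hδ
  have hδ0 : 0 < δ := by positivity
  set K₁ : ℝ := R * K₀ with hK₁
  have hK₁0 : 0 < K₁ := by positivity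
  set D : ℝ := B ^ K₁ / c with hD
  have hD0 : 0 < D := by positivity
  have hl2 : 0 < Real.log 2 := Real.log_pos (by norm_num)
  set T : ℝ := max 0 (Real.log D / Real.log 2) with hT
  have hT0 : 0 ≤ T := le_max_left _ _
  set K : ℝ := (T + K₁) / δ with hKdef
  have hK : 0 < K := by positivity
  have hpow : ∀ Z : ℝ, 0 ≤ Z → ∀ s : ℝ, (Z ^ R) ^ s = Z ^ (R * s) := by
    intro Z hZ s
    rw [← Real.rpow_natCast, ← Real.rpow_mul hZ]
  have hkey : ∀ X : ℝ, 2 ≤ X → ∀ M : ℝ, X ^ δ ≤ M → (B * X) ^ K₁ ≤ c * M ^ K := by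
    intro X hX M hM
    have hX0 : 0 < X := by linarith
    have h1 : X ^ (T + K₁) ≤ M ^ K := by
      have h2 : X ^ (T + K₁) = (X ^ δ) ^ K := by
        rw [← Real.rpow_mul hX0.le, hKdef]
        congr 1
        field_simp
      rw [h2]
      exact Real.rpow_le_rpow (by positivity) hM hK.le
    have h3 : D ≤ X ^ T := by
      have h4 : Real.log D ≤ T * Real.log 2 := by
        have : Real.log D / Real.log 2 ≤ T := le_max_right _ _
        rwa [div_le_iff₀ hl2] at this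
      have h5 : T * Real.log 2 ≤ T * Real.log X :=
        mul_le_mul_of_nonneg_left (Real.log_le_log (by norm_num) hX) hT0
      rw [← Real.log_le_log_iff hD0 (by positivity), Real.log_rpow hX0]
      linarith
    rw [Real.mul_rpow hB0.le hX0.le]
    have h6 : B ^ K₁ = c * D := by
      rw [hD]; field_simp
    rw [h6]
    calc c * D * X ^ K₁ ≤ c * X ^ T * X ^ K₁ := by gcongr
      _ = c * X ^ (T + K₁) := by rw [Real.rpow_add hX0]; ring
      _ ≤ c * M ^ K := by gcongr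
  set E1 : ℝ := C₁ * (2 * B) ^ ((R : ℝ) * L) with hE1
  set E2 : ℝ := C₁ * B ^ ((R : ℝ) * L) with hE2
  set E3 : ℝ := C₀ * B ^ ε with hE3
  have hE10 : 0 < E1 := by positivity
  have hE20 : 0 < E2 := by positivity
  have hE30 : 0 < E3 := by positivity
  refine ⟨K, E1 + E2 + E3, hK, by positivity, fun X hX Q hQ => ?_⟩
  have hX0 : 0 < X := by linarith
  have hXε : 1 ≤ X ^ ε := Real.one_le_rpow hX hε.le
  rcases lt_or_ge X 2 with hX2 | hX2
  · have h1 : (Q.card : ℝ) ≤ C₁ * ((2 * B) ^ R) ^ L := by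
      refine h₁ ((2 * B) ^ R) (one_le_pow₀ (by linarith)) Q (fun q hq => ?_)
      obtain ⟨M, h3, h4, h5, -⟩ := hQ q hq
      refine h5.mono (pow_le_pow_left₀ (by positivity) ?_ R)
      nlinarith
    rw [hpow _ (by positivity)] at h1
    nlinarith
  set P : ℕ × ℕ → Prop := fun q => NP n ((B * X ^ δ) ^ R) q with hP
  set Q1 := Q.filter P with hQ1
  set Q2 := Q.filter (fun q => ¬ P q) with hQ2
  have hsplit : Q.card = Q1.card + Q2.card := (card_filter_add_card_filter_not _).symm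
  have hXδ : 1 ≤ X ^ δ := Real.one_le_rpow hX hδ0.le
  have h1 : (Q1.card : ℝ) ≤ E2 * X ^ ε := by
    have h2 : (Q1.card : ℝ) ≤ C₁ * ((B * X ^ δ) ^ R) ^ L := by
      refine h₁ ((B * X ^ δ) ^ R) (one_le_pow₀ (by nlinarith)) Q1 (fun q hq => ?_)
      rw [hQ1, mem_filter] at hq
      exact hq.2
    rw [hpow _ (by positivity)] at h2
    have h3 : (B * X ^ δ) ^ ((R : ℝ) * L) = B ^ ((R : ℝ) * L) * X ^ ε := by
      rw [Real.mul_rpow hB0.le (by positivity), ← Real.rpow_mul hX0.le]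
      congr 2
      rw [hδ]
      field_simp
    rw [h3] at h2
    rw [hE2]
    linarith
  have h2 : (Q2.card : ℝ) ≤ E3 * X ^ ε := by
    have h3 : (Q2.card : ℝ) ≤ C₀ * ((B * X) ^ R) ^ (ε / R) := by
      refine h₀ ((B * X) ^ R) (one_le_pow₀ (by nlinarith)) Q2 (fun q hq => ?_)
      rw [hQ2, mem_filter] at hq
      obtain ⟨M, h5, h6, h7, h8⟩ := hQ q hq.1
      have h10 : X ^ δ ≤ M := by
        by_contra hcon
        push Not at hcon
        apply hq.2
        refine h7.mono (pow_le_pow_left₀ (by positivity) ?_ R)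
        gcongr
      have h9 : NP n ((B * X) ^ R) q := by
        refine h7.mono (pow_le_pow_left₀ (by positivity) ?_ R)
        gcongr
      obtain ⟨g1, g2, g3, g4, g5, g6⟩ := h9
      refine ⟨g1, g2, g3, g4, g5, g6, ?_⟩
      rw [hpow _ (by positivity)]
      exact (hkey X hX2 M h10).trans h8
    rw [hpow _ (by positivity)] at h3
    have h4 : (R : ℝ) * (ε / R) = ε := by field_simp
    rw [h4, Real.mul_rpow hB0.le hX0.le] at h3
    rw [hE3]
    linarith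
  have h3 : 0 ≤ E1 * X ^ ε := by positivity
  rw [hsplit]
  push_cast
  nlinarith

/-- a number whose exponents outside `S` take at most `n` values -/
lemma nb_of_exps (S : Finset ℕ) {n m : ℕ} {Y : ℝ} (hm : 0 < m) (hY : 1 ≤ Y)
    (hS : ∀ p ∈ S, (p : ℝ) ≤ Y) (hr : ((∏ p ∈ m.primeFactors \ S, p : ℕ) : ℝ) ≤ Y)
    (he : ((m.primeFactors \ S).image (fun p => m.factorization p)).card ≤ n) :
    NB (n + S.card) Y m := by
  classical
  set f : ℕ → ℕ := fun p => m.factorization p with hf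
  set A := m.primeFactors ∩ S with hA
  set U := m.primeFactors \ S with hU
  have hprod : m = (∏ p ∈ U, p ^ f p) * ∏ p ∈ A, p ^ f p := by
    conv_lhs => rw [← Nat.prod_factorization_pow_eq_self hm.ne']
    show ∏ p ∈ m.primeFactors, p ^ m.factorization p = _
    rw [mul_comm]
    have hd : Disjoint A U := by
      rw [hA, hU]
      exact (Finset.disjoint_sdiff_inter _ _).symm
    rw [← prod_union hd]
    have : A ∪ U = m.primeFactors := by
      rw [hA, hU]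
      ext p
      simp only [mem_union, mem_inter, mem_sdiff]
      tauto
    rw [this]
  have hbig : ∏ p ∈ U, p ^ f p =
      ∏ e ∈ U.image f, (∏ p ∈ U.filter (fun p => f p = e), p) ^ e := by
    rw [← prod_fiberwise_of_maps_to (s := U) (t := U.image f) (g := f)
      (fun p hp => mem_image_of_mem _ hp)]
    apply prod_congr rfl
    intro e _
    rw [← prod_pow]
    apply prod_congr rfl
    intro p hp
    rw [mem_filter] at hp
    rw [hp.2]
  have hpos : ∀ p ∈ m.primeFactors, 1 ≤ p := fun p hp => (Nat.prime_of_mem_primeFactors hp).pos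
  have h1 : NB n Y (∏ p ∈ U, p ^ f p) := by
    refine NB.mono_n (n := (U.image f).card) ?_ hY he
    rw [hbig]
    apply NB.of_type (ι := U.image f) (by simp)
      (fun e => ∏ p ∈ U.filter (fun p => f p = e), p) (fun e => (e : ℕ))
    · rintro e
      refine ⟨prod_pos (fun p hp => hpos p (mem_sdiff.mp (mem_filter.mp hp).1).1), ?_⟩
      refine le_trans ?_ hr
      have : ∏ p ∈ U.filter (fun p => f p = e), p ≤ ∏ p ∈ U, p := by
        refine prod_le_prod_of_subset_of_one_le' (filter_subset _ _) ?_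
        intro p hp _
        exact hpos p (mem_sdiff.mp hp).1
      exact_mod_cast this
    · exact (prod_coe_sort (U.image f)
        (fun e => (∏ p ∈ U.filter (fun p => f p = e), p) ^ e)).symm
  have h2 : NB S.card Y (∏ p ∈ A, p ^ f p) := by
    refine NB.mono_n (n := A.card) ?_ hY (card_le_card inter_subset_right)
    apply NB.of_type (ι := A) (by simp) (fun p => (p : ℕ)) (fun p => f p)
    · rintro ⟨p, hp⟩
      rw [hA, mem_inter] at hp
      exact ⟨hpos p hp.1, hS p hp.2⟩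
    · exact (prod_coe_sort A (fun p => p ^ f p)).symm
  have h3 := h1.mul h2
  rw [← hprod] at h3
  exact h3

/-- the value of the linear form attached to the point `a` -/
def Lf (a x : ℤ × ℤ) : ℤ := x.1 * a.2 - x.2 * a.1

/-- the determinant -/
def dt (a b : ℤ × ℤ) : ℤ := a.1 * b.2 - a.2 * b.1

lemma siegel (a b c x : ℤ × ℤ) : dt b c * Lf a x + dt c a * Lf b x + dt a b * Lf c x = 0 := by
  unfold dt Lf
  ring

lemma cramer1 (a b x : ℤ × ℤ) : dt a b * x.1 = Lf b x * a.1 - Lf a x * b.1 := by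
  unfold dt Lf
  ring

lemma cramer2 (a b x : ℤ × ℤ) : dt a b * x.2 = Lf b x * a.2 - Lf a x * b.2 := by
  unfold dt Lf
  ring

/-- reduction to coprime integers with sum zero -/
lemma line_pair (a b c x : ℤ × ℤ) (hab : dt a b ≠ 0) (hbc : dt b c ≠ 0) (hca : dt c a ≠ 0)
    (hx : IsCoprime x.1 x.2) (ha : Lf a x ≠ 0) :
    ∃ (g : ℕ) (U V : ℤ), 0 < g ∧ g ≤ (dt a b * dt b c * dt c a).natAbs ∧
      dt b c * Lf a x = g * U ∧ dt c a * Lf b x = g * V ∧ dt a b * Lf c x = -(g * (U + V)) ∧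
      IsCoprime U V := by
  set u := dt b c * Lf a x with hu
  set v := dt c a * Lf b x with hv
  have hu0 : u ≠ 0 := mul_ne_zero hbc ha
  set g := Int.gcd u v with hg
  have hg0 : 0 < g := Int.gcd_pos_of_ne_zero_left _ hu0
  obtain ⟨U, V, hcop, hU, hV⟩ : ∃ U V : ℤ, IsCoprime U V ∧ u = g * U ∧ v = g * V := by
    obtain ⟨U, V, h1, h2, h3⟩ := Int.exists_gcd_one hg0
    exact ⟨U, V, Int.isCoprime_iff_gcd_eq_one.mpr h1, by rw [mul_comm]; exact h2,
      by rw [mul_comm]; exact h3⟩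
  refine ⟨g, U, V, hg0, ?_, hU, hV, ?_, hcop⟩
  · have hd1 : (g : ℤ) ∣ u := ⟨U, hU⟩
    have hd2 : (g : ℤ) ∣ v := ⟨V, hV⟩
    have h1 : (g : ℤ) ∣ (dt a b * dt b c * dt c a) * x.1 := by
      have e : (dt a b * dt b c * dt c a) * x.1 =
          dt b c * a.1 * v - dt c a * b.1 * u := by
        have := cramer1 a b x
        rw [hu, hv]
        linear_combination (dt b c * dt c a) * this
      rw [e]
      exact dvd_sub (hd2.mul_left _) (hd1.mul_left _)
    have h2 : (g : ℤ) ∣ (dt a b * dt b c * dt c a) * x.2 := by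
      have e : (dt a b * dt b c * dt c a) * x.2 =
          dt b c * a.2 * v - dt c a * b.2 * u := by
        have := cramer2 a b x
        rw [hu, hv]
        linear_combination (dt b c * dt c a) * this
      rw [e]
      exact dvd_sub (hd2.mul_left _) (hd1.mul_left _)
    obtain ⟨s, t, hst⟩ := hx
    have h3 : (g : ℤ) ∣ dt a b * dt b c * dt c a := by
      have e : dt a b * dt b c * dt c a = s * ((dt a b * dt b c * dt c a) * x.1) +
          t * ((dt a b * dt b c * dt c a) * x.2) := by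
        linear_combination -(dt a b * dt b c * dt c a) * hst
      rw [e]
      exact dvd_add (h1.mul_left _) (h2.mul_left _)
    have hne : dt a b * dt b c * dt c a ≠ 0 := mul_ne_zero (mul_ne_zero hab hbc) hca
    exact Nat.le_of_dvd (Int.natAbs_pos.mpr hne) (Int.natCast_dvd.mp h3)
  · have := siegel a b c x
    rw [← hu, ← hv, hU, hV] at this
    linarith

/-- the six positions of a positive triple `u + v = w` -/
def Fc (i : Fin 6) (q : ℕ × ℕ) : ℤ × ℤ :=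
  match i with
  | 0 => ((q.1 : ℤ), (q.2 : ℤ))
  | 1 => (-(q.1 : ℤ), -(q.2 : ℤ))
  | 2 => ((q.1 : ℤ) + q.2, -(q.1 : ℤ))
  | 3 => (-((q.1 : ℤ) + q.2), (q.1 : ℤ))
  | 4 => ((q.1 : ℤ), -((q.1 : ℤ) + q.2))
  | 5 => (-(q.1 : ℤ), (q.1 : ℤ) + q.2)

lemma cop_of {U V : ℤ} (hc : IsCoprime U V) (u v : ℕ)
    (h : ∀ d : ℤ, d ∣ (u : ℤ) → d ∣ (v : ℤ) → d ∣ U ∧ d ∣ V) : Nat.Coprime u v := by
  obtain ⟨h1, h2⟩ := h (Nat.gcd u v : ℕ) (Int.natCast_dvd_natCast.mpr (Nat.gcd_dvd_left u v))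
    (Int.natCast_dvd_natCast.mpr (Nat.gcd_dvd_right u v))
  have h3 := hc.isUnit_of_dvd' h1 h2
  rw [Int.isUnit_iff] at h3
  have : Nat.gcd u v = 1 := by omega
  exact this

lemma sgn_case (U V : ℤ) (hU : U ≠ 0) (hV : V ≠ 0) (hW : U + V ≠ 0) (hc : IsCoprime U V) :
    ∃ (i : Fin 6) (q : ℕ × ℕ), 0 < q.1 ∧ 0 < q.2 ∧ Nat.Coprime q.1 q.2 ∧ (U, V) = Fc i q ∧
      U.natAbs ≤ q.1 + q.2 ∧ V.natAbs ≤ q.1 + q.2 ∧
      ∀ P : ℕ → Prop, P U.natAbs → P V.natAbs → P (U + V).natAbs →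
        P q.1 ∧ P q.2 ∧ P (q.1 + q.2) := by
  rcases lt_or_gt_of_ne hU with h1 | h1 <;> rcases lt_or_gt_of_ne hV with h2 | h2 <;>
    rcases lt_or_gt_of_ne hW with h3 | h3
  · refine ⟨1, (U.natAbs, V.natAbs), by simp only; omega, by simp only; omega, ?_, ?_,
      by simp only; omega, by simp only; omega, ?_⟩
    · refine cop_of hc _ _ (fun d h4 h5 => ?_)
      exact ⟨(Int.dvd_natAbs).mp h4, (Int.dvd_natAbs).mp h5⟩
    · show (U, V) = (-((U.natAbs : ℕ) : ℤ), -((V.natAbs : ℕ) : ℤ))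
      exact Prod.ext (by simp only; omega) (by simp only; omega)
    · intro P p1 p2 p3
      refine ⟨p1, p2, ?_⟩
      have : U.natAbs + V.natAbs = (U + V).natAbs := by omega
      simp only
      rw [this]
      exact p3
  · omega
  · -- U < 0 < V, U + V < 0 : case 3, `u = V`, `v = -(U+V)`
    refine ⟨3, (V.natAbs, (U + V).natAbs), by simp only; omega, by simp only; omega, ?_, ?_,
      by simp only; omega, by simp only; omega, ?_⟩
    · refine cop_of hc _ _ (fun d h4 h5 => ?_)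
      have e4 : d ∣ V := (Int.dvd_natAbs).mp h4
      have e5 : d ∣ U + V := (Int.dvd_natAbs).mp h5
      exact ⟨by simpa using dvd_sub e5 e4, e4⟩
    · show (U, V) = (-(((V.natAbs : ℕ) : ℤ) + (((U + V).natAbs : ℕ) : ℤ)), ((V.natAbs : ℕ) : ℤ))
      exact Prod.ext (by simp only; omega) (by simp only; omega)
    · intro P p1 p2 p3
      refine ⟨p2, p3, ?_⟩
      have : V.natAbs + (U + V).natAbs = U.natAbs := by omega
      simp only
      rw [this]
      exact p1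
  · -- U < 0 < V, U + V > 0 : case 5, `u = -U`, `v = U + V`
    refine ⟨5, (U.natAbs, (U + V).natAbs), by simp only; omega, by simp only; omega, ?_, ?_,
      by simp only; omega, by simp only; omega, ?_⟩
    · refine cop_of hc _ _ (fun d h4 h5 => ?_)
      have e4 : d ∣ U := (Int.dvd_natAbs).mp h4
      have e5 : d ∣ U + V := (Int.dvd_natAbs).mp h5
      exact ⟨e4, by simpa using dvd_sub e5 e4⟩
    · show (U, V) = (-((U.natAbs : ℕ) : ℤ), ((U.natAbs : ℕ) : ℤ) + (((U + V).natAbs : ℕ) : ℤ))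
      exact Prod.ext (by simp only; omega) (by simp only; omega)
    · intro P p1 p2 p3
      refine ⟨p1, p3, ?_⟩
      have : U.natAbs + (U + V).natAbs = V.natAbs := by omega
      simp only
      rw [this]
      exact p2
  · -- V < 0 < U, U + V < 0 : case 4, `u = U`, `v = -(U + V)`
    refine ⟨4, (U.natAbs, (U + V).natAbs), by simp only; omega, by simp only; omega, ?_, ?_,
      by simp only; omega, by simp only; omega, ?_⟩
    · refine cop_of hc _ _ (fun d h4 h5 => ?_)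
      have e4 : d ∣ U := (Int.dvd_natAbs).mp h4
      have e5 : d ∣ U + V := (Int.dvd_natAbs).mp h5
      exact ⟨e4, by simpa using dvd_sub e5 e4⟩
    · show (U, V) = (((U.natAbs : ℕ) : ℤ), -(((U.natAbs : ℕ) : ℤ) + (((U + V).natAbs : ℕ) : ℤ)))
      exact Prod.ext (by simp only; omega) (by simp only; omega)
    · intro P p1 p2 p3
      refine ⟨p1, p3, ?_⟩
      have : U.natAbs + (U + V).natAbs = V.natAbs := by omega
      simp only
      rw [this]
      exact p2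
  · -- V < 0 < U, U + V > 0 : case 2, `u = -V`, `v = U + V`
    refine ⟨2, (V.natAbs, (U + V).natAbs), by simp only; omega, by simp only; omega, ?_, ?_,
      by simp only; omega, by simp only; omega, ?_⟩
    · refine cop_of hc _ _ (fun d h4 h5 => ?_)
      have e4 : d ∣ V := (Int.dvd_natAbs).mp h4
      have e5 : d ∣ U + V := (Int.dvd_natAbs).mp h5
      exact ⟨by simpa using dvd_sub e5 e4, e4⟩
    · show (U, V) = (((V.natAbs : ℕ) : ℤ) + (((U + V).natAbs : ℕ) : ℤ), -((V.natAbs : ℕ) : ℤ))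
      exact Prod.ext (by simp only; omega) (by simp only; omega)
    · intro P p1 p2 p3
      refine ⟨p2, p3, ?_⟩
      have : V.natAbs + (U + V).natAbs = U.natAbs := by omega
      simp only
      rw [this]
      exact p1
  · omega
  · refine ⟨0, (U.natAbs, V.natAbs), by simp only; omega, by simp only; omega, ?_, ?_,
      by simp only; omega, by simp only; omega, ?_⟩
    · refine cop_of hc _ _ (fun d h4 h5 => ?_)
      exact ⟨(Int.dvd_natAbs).mp h4, (Int.dvd_natAbs).mp h5⟩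
    · show (U, V) = (((U.natAbs : ℕ) : ℤ), ((V.natAbs : ℕ) : ℤ))
      exact Prod.ext (by simp only; omega) (by simp only; omega)
    · intro P p1 p2 p3
      refine ⟨p1, p2, ?_⟩
      have : U.natAbs + V.natAbs = (U + V).natAbs := by omega
      simp only
      rw [this]
      exact p3

lemma inj_line (a b : ℤ × ℤ) (r s U V : ℤ) (hr : r ≠ 0) (hs : s ≠ 0) (hab : dt a b ≠ 0)
    (x y : ℤ × ℤ) (hx : IsCoprime x.1 x.2) (hy : IsCoprime y.1 y.2) (g h : ℕ) (hg : 0 < g)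
    (h1 : r * Lf a x = g * U) (h2 : s * Lf b x = g * V)
    (h3 : r * Lf a y = h * U) (h4 : s * Lf b y = h * V) : x = y := by
  have e1 : (h : ℤ) * Lf a x = g * Lf a y := by
    apply mul_left_cancel₀ hr
    linear_combination (h : ℤ) * h1 - (g : ℤ) * h3
  have e2 : (h : ℤ) * Lf b x = g * Lf b y := by
    apply mul_left_cancel₀ hs
    linear_combination (h : ℤ) * h2 - (g : ℤ) * h4
  have f1 : (h : ℤ) * x.1 = g * y.1 := by
    apply mul_left_cancel₀ hab
    linear_combination (h : ℤ) * cramer1 a b x - (g : ℤ) * cramer1 a b y + a.1 * e2 - b.1 * e1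
  have f2 : (h : ℤ) * x.2 = g * y.2 := by
    apply mul_left_cancel₀ hab
    linear_combination (h : ℤ) * cramer2 a b x - (g : ℤ) * cramer2 a b y + a.2 * e2 - b.2 * e1
  obtain ⟨s1, t1, hst1⟩ := hx
  obtain ⟨s2, t2, hst2⟩ := hy
  have d1 : (g : ℤ) ∣ h := ⟨s1 * y.1 + t1 * y.2, by
    linear_combination -(h : ℤ) * hst1 + s1 * f1 + t1 * f2⟩
  have d2 : (h : ℤ) ∣ g := ⟨s2 * x.1 + t2 * x.2, by
    linear_combination -(g : ℤ) * hst2 - s2 * f1 - t2 * f2⟩
  have hgh : g = h := Nat.dvd_antisymm (Int.natCast_dvd_natCast.mp d1)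
    (Int.natCast_dvd_natCast.mp d2)
  subst hgh
  have hg' : (g : ℤ) ≠ 0 := by exact_mod_cast hg.ne'
  exact Prod.ext (mul_left_cancel₀ hg' f1) (mul_left_cancel₀ hg' f2)

/-- few exponents outside `S` and small radical outside `S` -/
def Gd (S : Finset ℕ) (n : ℕ) (M : ℝ) (m : ℕ) : Prop :=
  ((m.primeFactors \ S).image (fun p => m.factorization p)).card ≤ n ∧
    ((∏ p ∈ m.primeFactors \ S, p : ℕ) : ℝ) ≤ M

lemma nb_step (S : Finset ℕ) (n R g : ℕ) (B M : ℝ) (hR1 : 1 ≤ R) (hg0 : 0 < g) (hgR : g ≤ R)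
    (hBM1 : 1 ≤ B * M) (hMB : M ≤ B * M) (hSB : ∀ p ∈ S, (p : ℝ) ≤ B * M)
    (hRB : (R : ℝ) ≤ B * M) (r l w : ℤ) (hr1 : 1 ≤ r.natAbs) (hrR : r.natAbs ≤ R) (hl : l ≠ 0)
    (hG : Gd S n M l.natAbs) (he : r * l = g * w ∨ r * l = -(g * w)) :
    NB ((n + S.card + 1) + (n + S.card + 1)) ((B * M) ^ R) w.natAbs := by
  have e : r.natAbs * l.natAbs = g * w.natAbs := by
    rcases he with he | he
    · have := congrArg Int.natAbs he
      rwa [Int.natAbs_mul, Int.natAbs_mul, Int.natAbs_natCast] at this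
    · have := congrArg Int.natAbs he
      rwa [Int.natAbs_neg, Int.natAbs_mul, Int.natAbs_mul, Int.natAbs_natCast] at this
  have h1 : NB (n + S.card) (B * M) l.natAbs :=
    nb_of_exps S (Int.natAbs_pos.mpr hl) hBM1 hSB (hG.2.trans hMB) hG.1
  have h2 : NB (n + S.card + 1) (B * M) (r.natAbs * l.natAbs) :=
    h1.mul_base hr1 (le_trans (by exact_mod_cast hrR) hRB)
  have h3 := h2.div hBM1 hR1 (g := g) ⟨w.natAbs, e⟩ hgR
  rw [e, Nat.mul_div_cancel_left _ hg0] at h3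
  exact h3

lemma form_le (R g s : ℕ) (hgR : g ≤ R) (r l w : ℤ) (hr1 : 1 ≤ r.natAbs) (he : r * l = g * w)
    (hw : w.natAbs ≤ s) : l.natAbs ≤ R * s := by
  have e : r.natAbs * l.natAbs = g * w.natAbs := by
    have := congrArg Int.natAbs he
    rwa [Int.natAbs_mul, Int.natAbs_mul, Int.natAbs_natCast] at this
  calc l.natAbs = 1 * l.natAbs := (one_mul _).symm
    _ ≤ r.natAbs * l.natAbs := Nat.mul_le_mul_right _ hr1
    _ = g * w.natAbs := e
    _ ≤ R * s := Nat.mul_le_mul hgR hw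

lemma comb_le (d y e f l m : ℤ) (T A : ℕ) (hd : 1 ≤ d.natAbs) (h : d * y = l * e - m * f)
    (hl : l.natAbs ≤ T) (hm : m.natAbs ≤ T) (he : e.natAbs ≤ A) (hf : f.natAbs ≤ A) :
    y.natAbs ≤ 2 * A * T := by
  have e1 := congrArg Int.natAbs h
  rw [Int.natAbs_mul] at e1
  calc y.natAbs = 1 * y.natAbs := (one_mul _).symm
    _ ≤ d.natAbs * y.natAbs := Nat.mul_le_mul_right _ hd
    _ = (l * e - m * f).natAbs := e1
    _ ≤ (l * e).natAbs + (m * f).natAbs := Int.natAbs_sub_le _ _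
    _ = l.natAbs * e.natAbs + m.natAbs * f.natAbs := by
        rw [Int.natAbs_mul, Int.natAbs_mul]
    _ ≤ T * A + T * A := Nat.add_le_add (Nat.mul_le_mul hl he) (Nat.mul_le_mul hm hf)
    _ = _ := by ring

/-- **points of the line with few exponents** -/
theorem line_count (a b c : ℤ × ℤ) (hab : dt a b ≠ 0) (hbc : dt b c ≠ 0) (hca : dt c a ≠ 0)
    (S : Finset ℕ) (n : ℕ) (ε : ℝ) (hε : 0 < ε) : ∃ K C : ℝ, 0 < K ∧ 0 < C ∧
    ∀ X : ℝ, 1 ≤ X → ∀ Q : Finset (ℤ × ℤ), (∀ x ∈ Q, IsCoprime x.1 x.2 ∧ Lf a x ≠ 0 ∧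
      Lf b x ≠ 0 ∧ Lf c x ≠ 0 ∧ ∃ M : ℝ, 1 ≤ M ∧ M ≤ X ∧ Gd S n M (Lf a x).natAbs ∧
        Gd S n M (Lf b x).natAbs ∧ Gd S n M (Lf c x).natAbs ∧
        M ^ K < max (|(x.1 : ℝ)|) (|(x.2 : ℝ)|)) → (Q.card : ℝ) ≤ C * X ^ ε := by
  classical
  obtain ⟨A, hA⟩ : ∃ A : ℕ, A = a.1.natAbs + a.2.natAbs + b.1.natAbs + b.2.natAbs := ⟨_, rfl⟩
  have hAa1 : a.1.natAbs ≤ A := by omega
  have hAa2 : a.2.natAbs ≤ A := by omega
  have hAb1 : b.1.natAbs ≤ A := by omega
  have hAb2 : b.2.natAbs ≤ A := by omega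
  clear hA
  obtain ⟨R, hR⟩ : ∃ R : ℕ, R = (dt a b * dt b c * dt c a).natAbs := ⟨_, rfl⟩
  have hRne : dt a b * dt b c * dt c a ≠ 0 := mul_ne_zero (mul_ne_zero hab hbc) hca
  have hR1 : 1 ≤ R := by
    rw [hR]
    exact Nat.one_le_iff_ne_zero.mpr (Int.natAbs_ne_zero.mpr hRne)
  obtain ⟨B, hB⟩ : ∃ B : ℝ, B = 1 + ((∑ p ∈ S, p : ℕ) : ℝ) + R := ⟨_, rfl⟩
  have hB1 : 1 ≤ B := by
    rw [hB]
    have h1 : (0 : ℝ) ≤ ((∑ p ∈ S, p : ℕ) : ℝ) := Nat.cast_nonneg _
    have h2 : (0 : ℝ) ≤ (R : ℝ) := Nat.cast_nonneg _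
    linarith
  obtain ⟨c', hc'⟩ : ∃ c' : ℝ, c' = 1 / (2 * A * R + 1) := ⟨_, rfl⟩
  have hc'0 : 0 < c' := by rw [hc']; positivity
  obtain ⟨k, hk⟩ : ∃ k : ℕ, k = n + S.card + 1 := ⟨_, rfl⟩
  obtain ⟨K, C, hK, hC, h⟩ := np_core (k + k) ε B c' R hε hB1 hc'0 hR1
  refine ⟨K, 6 * C, hK, by positivity, fun X hX Q hQ => ?_⟩
  have hdab : 1 ≤ (dt a b).natAbs := Nat.one_le_iff_ne_zero.mpr (Int.natAbs_ne_zero.mpr hab)
  have hdbc : 1 ≤ (dt b c).natAbs := Nat.one_le_iff_ne_zero.mpr (Int.natAbs_ne_zero.mpr hbc)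
  have hdca : 1 ≤ (dt c a).natAbs := Nat.one_le_iff_ne_zero.mpr (Int.natAbs_ne_zero.mpr hca)
  have hRprod : R = (dt a b).natAbs * (dt b c).natAbs * (dt c a).natAbs := by
    rw [hR, Int.natAbs_mul, Int.natAbs_mul]
  have hleab : (dt a b).natAbs ≤ R := by
    rw [hRprod, mul_assoc]
    exact Nat.le_mul_of_pos_right _ (by positivity)
  have hlebc : (dt b c).natAbs ≤ R := by
    rw [hRprod, mul_comm (dt a b).natAbs, mul_assoc]
    exact Nat.le_mul_of_pos_right _ (by positivity)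
  have hleca : (dt c a).natAbs ≤ R := by
    rw [hRprod]
    exact Nat.le_mul_of_pos_left _ (by positivity)
  -- the data
  have key : ∀ x ∈ Q, ∃ (i : Fin 6) (q : ℕ × ℕ), (∃ (g : ℕ) (U V : ℤ), 0 < g ∧
      dt b c * Lf a x = g * U ∧ dt c a * Lf b x = g * V ∧ (U, V) = Fc i q) ∧
      ∃ M : ℝ, 1 ≤ M ∧ M ≤ X ∧ NP (k + k) ((B * M) ^ R) q ∧
        c' * M ^ K ≤ ((q.1 + q.2 : ℕ) : ℝ) := by
    intro x hx
    obtain ⟨hcop, ha, hb, hcx, M, hM1, hMX, g1, g2, g3, hbig⟩ := hQ x hx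
    obtain ⟨g, U, V, hg0, hgR, hU, hV, hW, hUV⟩ := line_pair a b c x hab hbc hca hcop ha
    rw [← hR] at hgR
    have hgZ : (g : ℤ) ≠ 0 := by exact_mod_cast hg0.ne'
    have hU0 : U ≠ 0 := by
      rintro rfl
      rw [mul_zero] at hU
      exact (mul_ne_zero hbc ha) hU
    have hV0 : V ≠ 0 := by
      rintro rfl
      rw [mul_zero] at hV
      exact (mul_ne_zero hca hb) hV
    have hW0 : U + V ≠ 0 := by
      intro h0
      rw [h0, mul_zero, neg_zero] at hW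
      exact (mul_ne_zero hab hcx) hW
    obtain ⟨i, q, hq1, hq2, hqc, hF, hUs, hVs, hP⟩ := sgn_case U V hU0 hV0 hW0 hUV
    refine ⟨i, q, ⟨g, U, V, hg0, hU, hV, hF⟩, M, hM1, hMX, ?_, ?_⟩
    · have hM0 : 0 < M := by linarith
      have hBM : B ≤ B * M := le_mul_of_one_le_right (by linarith) hM1
      have hMB : M ≤ B * M := le_mul_of_one_le_left hM0.le hB1
      have hBM1 : 1 ≤ B * M := hB1.trans hBM
      have hSB : ∀ p ∈ S, (p : ℝ) ≤ B * M := by
        intro p hp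
        refine le_trans ?_ hBM
        have h1 : p ≤ ∑ p ∈ S, p := Finset.single_le_sum (f := fun p => p) (fun _ _ => Nat.zero_le _) hp
        have h2 : (p : ℝ) ≤ ((∑ p ∈ S, p : ℕ) : ℝ) := by exact_mod_cast h1
        have h3 : (0 : ℝ) ≤ (R : ℝ) := Nat.cast_nonneg _
        rw [hB]
        linarith
      have hRB : (R : ℝ) ≤ B * M := by
        refine le_trans ?_ hBM
        have h1 : (0 : ℝ) ≤ ((∑ p ∈ S, p : ℕ) : ℝ) := Nat.cast_nonneg _
        rw [hB]
        linarith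
      have p1 := nb_step S n R g B M hR1 hg0 hgR hBM1 hMB hSB hRB (dt b c) (Lf a x) U hdbc
        hlebc ha g1 (Or.inl hU)
      have p2 := nb_step S n R g B M hR1 hg0 hgR hBM1 hMB hSB hRB (dt c a) (Lf b x) V hdca
        hleca hb g2 (Or.inl hV)
      have p3 := nb_step S n R g B M hR1 hg0 hgR hBM1 hMB hSB hRB (dt a b) (Lf c x) (U + V) hdab
        hleab hcx g3 (Or.inr hW)
      rw [← hk] at p1 p2 p3
      obtain ⟨r1, r2, r3⟩ := hP (fun m => NB (k + k) ((B * M) ^ R) m) p1 p2 p3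
      exact ⟨hq1, hq2, hqc, r1, r2, r3⟩
    · -- size
      have la := form_le R g _ hgR _ _ _ hdbc hU hUs
      have lb := form_le R g _ hgR _ _ _ hdca hV hVs
      have x1 : x.1.natAbs ≤ 2 * A * (R * (q.1 + q.2)) :=
        comb_le _ _ _ _ _ _ _ _ hdab (cramer1 a b x) lb la hAa1 hAb1
      have x2 : x.2.natAbs ≤ 2 * A * (R * (q.1 + q.2)) :=
        comb_le _ _ _ _ _ _ _ _ hdab (cramer2 a b x) lb la hAa2 hAb2
      have hsr : (((2 * A * (R * (q.1 + q.2)) : ℕ)) : ℝ) = 2 * A * R * ((q.1 + q.2 : ℕ) : ℝ) := by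
        push_cast
        ring
      have y1 : |(x.1 : ℝ)| ≤ 2 * A * R * ((q.1 + q.2 : ℕ) : ℝ) := by
        have : |(x.1 : ℝ)| = ((x.1.natAbs : ℕ) : ℝ) := by
          rw [Nat.cast_natAbs, Int.cast_abs]
        rw [this, ← hsr]
        exact Nat.cast_le.mpr x1
      have y2 : |(x.2 : ℝ)| ≤ 2 * A * R * ((q.1 + q.2 : ℕ) : ℝ) := by
        have : |(x.2 : ℝ)| = ((x.2.natAbs : ℕ) : ℝ) := by
          rw [Nat.cast_natAbs, Int.cast_abs]
        rw [this, ← hsr]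
        exact Nat.cast_le.mpr x2
      have h1 : M ^ K ≤ 2 * A * R * ((q.1 + q.2 : ℕ) : ℝ) := hbig.le.trans (max_le y1 y2)
      have h2 : (0 : ℝ) ≤ ((q.1 + q.2 : ℕ) : ℝ) := Nat.cast_nonneg _
      rw [hc', one_div, inv_mul_eq_div, div_le_iff₀ (by positivity)]
      linarith
  choose! i q hq using key
  have hinj : Set.InjOn (fun x => (i x, q x)) (Q : Set (ℤ × ℤ)) := by
    intro x hx y hy hxy
    obtain ⟨⟨g, U, V, hg, h1, h2, h3⟩, -⟩ := hq x hx
    obtain ⟨⟨g', U', V', hg', h1', h2', h3'⟩, -⟩ := hq y hy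
    simp only [Prod.mk.injEq] at hxy
    rw [← hxy.1, ← hxy.2, ← h3] at h3'
    simp only [Prod.mk.injEq] at h3'
    obtain ⟨rfl, rfl⟩ := h3'
    exact inj_line a b _ _ U' V' hbc hca hab x y (hQ x hx).1 (hQ y hy).1 g g' hg h1 h2 h1' h2'
  have h1 : Q.card ≤ 6 * (Q.image q).card := by
    have h2 : Q.card ≤ ((Finset.univ : Finset (Fin 6)) ×ˢ (Q.image q)).card := by
      refine card_le_card_of_injOn (fun x => (i x, q x)) (fun x hx => ?_) hinj
      rw [mem_coe, mem_product]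
      exact ⟨mem_univ _, mem_image_of_mem _ hx⟩
    rwa [card_product, card_univ, Fintype.card_fin] at h2
  have h2 : ((Q.image q).card : ℝ) ≤ C * X ^ ε := by
    refine h X hX (Q.image q) (fun y hy => ?_)
    obtain ⟨x, hx, rfl⟩ := mem_image.mp hy
    exact (hq x hx).2
  have h3 : (Q.card : ℝ) ≤ 6 * ((Q.image q).card : ℝ) := by exact_mod_cast h1
  linarith

end Pool.Agent.Q130.SZ
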